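import Mathlib.Tactic

/-!
The birational involution `j` of the surface `X : y ^ 2 = (x ^ 3 - x) * (t ^ 3 - t)` over a field.

With `w = y / ((x ^ 2 - 1) * (t + 1))` the surface is fibred by the curves
`w ^ 2 * (x ^ 2 - 1) * (t + 1) = x * t * (t - 1)` of bidegree `(2, 2)`; the hyperbolas
`x * (t - α) = δ * (δ - α)` with `δ = w / (1 - w)` pass through the two points `(δ, δ)` and
`(0, ∞)` of the fibre and cut out the pairs of conjugate points of `j`.
-/

namespace Pool.Agent.Helper90_WAP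

variable {F : Type*} [Field F]

/-- the affine surface -/
def OnX (x t y : F) : Prop := y ^ 2 = (x ^ 3 - x) * (t ^ 3 - t)

/-- the data of the involution in relational form: `(x, t, y)` is sent to `(x', t', y')` -/
structure JRel (x t y w δ α x' t' y' : F) : Prop where
  hw : w * ((x ^ 2 - 1) * (t + 1)) = y
  hδ : δ * (1 - w) = w
  hα : α * (x - δ) = x * t - δ ^ 2
  hx : x' * (w ^ 2 * (α + 1) * x) = (δ - α) * (δ * (δ - α) + w ^ 2)
  ht : (t' - α) * x' = δ * (δ - α)
  hy : y' = w * (x' ^ 2 - 1) * (t' + 1)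

/-- fibre equation -/
theorem fibre_of_onX {x t y w : F} (hX : OnX x t y) (hw : w * ((x ^ 2 - 1) * (t + 1)) = y)
    (h1 : x ^ 2 - 1 ≠ 0) (h2 : t + 1 ≠ 0) :
    w ^ 2 * (x ^ 2 - 1) * (t + 1) = x * t * (t - 1) := by
  have h3 : (x ^ 2 - 1) * (t + 1) ≠ 0 := mul_ne_zero h1 h2
  apply mul_right_cancel₀ h3
  unfold OnX at hX
  subst hw
  linear_combination hX

theorem onX_of_fibre {x t w : F} (h : w ^ 2 * (x ^ 2 - 1) * (t + 1) = x * t * (t - 1)) :
    OnX x t (w * (x ^ 2 - 1) * (t + 1)) := by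
  unfold OnX
  linear_combination (x ^ 2 - 1) * (t + 1) * h

/-- the third root of a cubic with two known different roots -/
theorem third_root {a b c d r s u : F} (hrs : r ≠ s) (hr0 : r ≠ 0) (hs0 : s ≠ 0)
    (h1 : a * r ^ 3 + b * r ^ 2 + c * r + d = 0)
    (h2 : a * s ^ 3 + b * s ^ 2 + c * s + d = 0)
    (h3 : a * (r * s * u) = - d) :
    a * u ^ 3 + b * u ^ 2 + c * u + d = 0 := by
  have hsub : r - s ≠ 0 := sub_ne_zero.2 hrs
  have e1 : a * (r ^ 2 + r * s + s ^ 2) + b * (r + s) + c = 0 := by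
    apply mul_left_cancel₀ hsub
    linear_combination h1 - h2
  have e2 : d = r * s * (a * (r + s) + b) := by
    linear_combination h1 - r * e1
  have e3 : a * u + (a * (r + s) + b) = 0 := by
    apply mul_left_cancel₀ (mul_ne_zero hr0 hs0)
    linear_combination h3 - e2
  linear_combination (u - r) * (u - s) * e3 + u * e1 + e2

/-- the image lies on the fibre -/
theorem fibre_image {x t y w δ α x' t' y' : F} (h : JRel x t y w δ α x' t' y')
    (hX : OnX x t y) (h1 : x ^ 2 - 1 ≠ 0) (h2 : t + 1 ≠ 0) (hx0 : x ≠ 0) (hδ0 : δ ≠ 0)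
    (hxδ : x ≠ δ) (hx'0 : x' ≠ 0) :
    w ^ 2 * (x' ^ 2 - 1) * (t' + 1) = x' * t' * (t' - 1) := by
  have hf := fibre_of_onX hX h.hw h1 h2
  have hδ' : δ = w * (δ + 1) := by linear_combination h.hδ
  have hxt : x * t = α * x + δ * (δ - α) := by linear_combination (-1) * h.hα
  -- the cubic
  have c1 : (- w ^ 2 * (α + 1)) * x ^ 3 + (α * (α - 1) - w ^ 2 * (δ * (δ - α))) * x ^ 2
      + (δ * (δ - α) * (2 * α - 1) + w ^ 2 * (α + 1)) * x
      + δ * (δ - α) * (δ * (δ - α) + w ^ 2) = 0 := by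
    have e : (x * t) * (x * t - x) - w ^ 2 * (x ^ 2 - 1) * (x * t + x) = 0 := by
      linear_combination (- x) * hf
    rw [hxt] at e
    linear_combination e
  have c2 : (- w ^ 2 * (α + 1)) * δ ^ 3 + (α * (α - 1) - w ^ 2 * (δ * (δ - α))) * δ ^ 2
      + (δ * (δ - α) * (2 * α - 1) + w ^ 2 * (α + 1)) * δ
      + δ * (δ - α) * (δ * (δ - α) + w ^ 2) = 0 := by
    linear_combination (δ * (δ - 1) * (δ + w * (δ + 1))) * hδ'
  have c3 : (- w ^ 2 * (α + 1)) * (x * δ * x') = - (δ * (δ - α) * (δ * (δ - α) + w ^ 2)) := by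
    linear_combination (- δ) * h.hx
  have c4 := third_root hxδ hx0 hδ0 c1 c2 c3
  have hxt' : x' * t' = α * x' + δ * (δ - α) := by linear_combination h.ht
  apply mul_left_cancel₀ hx'0
  have e : (x' * t') * (x' * t' - x') - w ^ 2 * (x' ^ 2 - 1) * (x' * t' + x') = 0 := by
    rw [hxt']
    linear_combination c4
  linear_combination (-1) * e

/-- (J1) the image lies on the surface -/
theorem onX_image {x t y w δ α x' t' y' : F} (h : JRel x t y w δ α x' t' y')
    (hX : OnX x t y) (h1 : x ^ 2 - 1 ≠ 0) (h2 : t + 1 ≠ 0) (hx0 : x ≠ 0) (hδ0 : δ ≠ 0)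
    (hxδ : x ≠ δ) (hx'0 : x' ≠ 0) : OnX x' t' y' := by
  rw [h.hy]
  exact onX_of_fibre (fibre_image h hX h1 h2 hx0 hδ0 hxδ hx'0)

/-- (J2) the relation is symmetric -/
theorem JRel.symm {x t y w δ α x' t' y' : F} (h : JRel x t y w δ α x' t' y') :
    JRel x' t' y' w δ α x t y where
  hw := by rw [h.hy]; ring
  hδ := h.hδ
  hα := by linear_combination (-1) * h.ht
  hx := by linear_combination h.hx
  ht := by linear_combination (-1) * h.hα
  hy := by rw [← h.hw]; ring

end Pool.Agent.Helper90_WAP
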