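import Pool.Agent.WAP.Exports
import Pool.Agent.Helper90_WAP.J

/-!
The letters `jj` and `io` over a field: the domains are stable and both maps are involutions there.
-/

namespace Pool.Agent.WAP.H90

open Pool.Agent.Helper90_WAP (OnX JRel onX_image fibre_image fibre_of_onX onX_of_fibre)

variable {F : Type} [Field F]

theorem onU_onX {z : F × F × F} (h : OnU z) : OnX z.1 z.2.1 z.2.2 := h.1

theorem onU_facts {z : F × F × F} (h : OnU z) :
    z.1 ≠ 0 ∧ z.1 ^ 2 - 1 ≠ 0 ∧ z.2.1 ≠ 0 ∧ z.2.1 - 1 ≠ 0 ∧ z.2.1 + 1 ≠ 0 ∧ z.2.1 ^ 2 - 1 ≠ 0 ∧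
      z.1 - 1 ≠ 0 ∧ z.1 + 1 ≠ 0 := by
  obtain ⟨x, t, y⟩ := z
  obtain ⟨h1, hy⟩ := h
  simp only [cub] at h1 hy ⊢
  have h2 : (x ^ 3 - x) * (t ^ 3 - t) ≠ 0 := by
    rw [← h1]
    exact pow_ne_zero 2 hy
  refine ⟨?_, ?_, ?_, ?_, ?_, ?_, ?_, ?_⟩
  · rintro rfl; apply h2; ring
  · intro h0; apply h2; linear_combination x * (t ^ 3 - t) * h0
  · rintro rfl; apply h2; ring
  · intro h0; apply h2; linear_combination (x ^ 3 - x) * t * (t + 1) * h0
  · intro h0; apply h2; linear_combination (x ^ 3 - x) * t * (t - 1) * h0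
  · intro h0; apply h2; linear_combination (x ^ 3 - x) * t * h0
  · intro h0; apply h2; linear_combination (x ^ 2 + x) * (t ^ 3 - t) * h0
  · intro h0; apply h2; linear_combination (x ^ 2 - x) * (t ^ 3 - t) * h0

theorem jw_ne {z : F × F × F} (h : OnU z) : jw z ≠ 0 := by
  obtain ⟨_, h1, _, _, h2, _⟩ := onU_facts h
  unfold jw
  exact div_ne_zero h.2 (mul_ne_zero h1 h2)

theorem jd_ne {z : F × F × F} (h : OnU z) (hw : jw z ≠ 1) : jd z ≠ 0 := by
  unfold jd
  exact div_ne_zero (jw_ne h) (sub_ne_zero.2 hw.symm)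

/-- `z ↦ jf z` satisfies the relation -/
theorem jRel_of_jD {z : F × F × F} (h : jD z) :
    JRel z.1 z.2.1 z.2.2 (jw z) (jd z) (ja z) (jx z) (jt z) (jf z).2.2 := by
  obtain ⟨hU, w1, xd, a1, da, g, xd', x1'⟩ := h
  obtain ⟨hx, h1, ht, ht1, h2, _⟩ := onU_facts hU
  have hw0 := jw_ne hU
  have ha : ja z + 1 ≠ 0 := by
    intro h0; apply a1; linear_combination h0
  have hx' : jx z ≠ 0 := by
    unfold jx
    exact div_ne_zero (mul_ne_zero (sub_ne_zero.2 da) g)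
      (mul_ne_zero (mul_ne_zero (pow_ne_zero 2 hw0) ha) hx)
  refine ⟨?_, ?_, ?_, ?_, ?_, ?_⟩
  · unfold jw
    exact div_mul_cancel₀ _ (mul_ne_zero h1 h2)
  · unfold jd
    exact div_mul_cancel₀ _ (sub_ne_zero.2 w1.symm)
  · unfold ja
    exact div_mul_cancel₀ _ (sub_ne_zero.2 xd)
  · unfold jx
    exact div_mul_cancel₀ _ (mul_ne_zero (mul_ne_zero (pow_ne_zero 2 hw0) ha) hx)
  · unfold jt
    rw [add_sub_cancel_left]
    exact div_mul_cancel₀ _ hx'
  · rfl

theorem jx_ne {z : F × F × F} (h : jD z) : jx z ≠ 0 := by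
  obtain ⟨hU, w1, xd, a1, da, g, xd', x1'⟩ := h
  obtain ⟨hx, h1, ht, ht1, h2, _⟩ := onU_facts hU
  have ha : ja z + 1 ≠ 0 := by
    intro h0; apply a1; linear_combination h0
  unfold jx
  exact div_ne_zero (mul_ne_zero (sub_ne_zero.2 da) g)
    (mul_ne_zero (mul_ne_zero (pow_ne_zero 2 (jw_ne hU)) ha) hx)

/-- the relation is functional -/
theorem eq_of_jRel {z : F × F × F} {w δ α x' t' y' : F}
    (h : JRel z.1 z.2.1 z.2.2 w δ α x' t' y')
    (hU : OnU z) (hxd : z.1 ≠ δ) (ha : α + 1 ≠ 0) (hx' : x' ≠ 0) :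
    w = jw z ∧ δ = jd z ∧ α = ja z ∧ x' = jx z ∧ t' = jt z ∧ (x', t', y') = jf z := by
  obtain ⟨hx, h1, ht, ht1, h2, _⟩ := onU_facts hU
  have ew : w = jw z := by
    unfold jw
    rw [eq_div_iff (mul_ne_zero h1 h2)]
    exact h.hw
  have w0 : w ≠ 0 := by
    intro h0
    apply hU.2
    rw [← h.hw, h0, zero_mul]
  have w1 : 1 - w ≠ 0 := by
    intro h0
    apply w0
    rw [← h.hδ, h0, mul_zero]
  have ed : δ = jd z := by
    unfold jd
    rw [← ew, eq_div_iff w1]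
    exact h.hδ
  have ea : α = ja z := by
    unfold ja
    rw [← ed, eq_div_iff (sub_ne_zero.2 hxd)]
    exact h.hα
  have ex : x' = jx z := by
    unfold jx
    rw [← ew, ← ed, ← ea, eq_div_iff (mul_ne_zero (mul_ne_zero (pow_ne_zero 2 w0) ha) hx)]
    exact h.hx
  have et : t' = jt z := by
    unfold jt
    rw [← ed, ← ea, ← ex, ← sub_eq_iff_eq_add', eq_div_iff hx']
    exact h.ht
  refine ⟨ew, ed, ea, ex, et, ?_⟩
  unfold jf
  rw [← ew, ← ex, ← et, h.hy]

/-- the domain of `j` is stable and `j` is an involution on it -/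
theorem jD_jf (h2 : (2 : F) ≠ 0) {z : F × F × F} (h : jD z) : jD (jf z) ∧ jf (jf z) = z := by
  have hr := jRel_of_jD h
  have hx0' := jx_ne h
  obtain ⟨hU, w1, xd, a1, da, g, xd', x1'⟩ := h
  obtain ⟨hx, hx1, ht, ht1, ht2, _⟩ := onU_facts hU
  have hd0 := jd_ne hU w1
  have hw0 := jw_ne hU
  have hX' := onX_image hr hU.1 hx1 ht2 hx hd0 xd hx0'
  have hf' := fibre_image hr hU.1 hx1 ht2 hx hd0 xd hx0'
  have ht' : jt z + 1 ≠ 0 := by
    intro h0
    have ht0 : jt z = -1 := by linear_combination h0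
    rw [ht0] at hf'
    have : 2 * jx z = 0 := by linear_combination (-1) * hf'
    exact (mul_ne_zero h2 hx0') this
  have hy' : (jf z).2.2 ≠ 0 := by
    rw [hr.hy]
    refine mul_ne_zero (mul_ne_zero hw0 ?_) ht'
    exact sub_ne_zero.2 x1'
  have hU' : OnU (jf z) := ⟨hX', hy'⟩
  have hr' : JRel (jf z).1 (jf z).2.1 (jf z).2.2 (jw z) (jd z) (ja z) z.1 z.2.1 z.2.2 := hr.symm
  have ha : ja z + 1 ≠ 0 := by
    intro h0; apply a1; linear_combination h0
  obtain ⟨ew, ed, ea, ex, et, ez⟩ := eq_of_jRel hr' hU' xd' ha hx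
  refine ⟨⟨hU', ?_, ?_, ?_, ?_, ?_, ?_, ?_⟩, ez.symm⟩
  · rw [← ew]; exact w1
  · rw [← ed]; exact xd'
  · rw [← ea]; exact a1
  · rw [← ed, ← ea]; exact da
  · rw [← ed, ← ea, ← ew]; exact g
  · rw [← ex, ← ed]; exact xd
  · rw [← ex]
    intro h0; apply hx1; rw [h0, sub_self]

theorem onU_t00f {z : F × F × F} (h : OnU z) : OnU (t00f z) := by
  obtain ⟨x, t, y⟩ := z
  obtain ⟨hx, hx1, ht, _⟩ := onU_facts h
  obtain ⟨h1, hy⟩ := h
  simp only [cub] at h1 hy hx hx1 ht ⊢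
  refine ⟨?_, ?_⟩
  · simp only [t00f, cub]
    field_simp
    linear_combination h1
  · simp only [t00f]
    exact div_ne_zero hy (mul_ne_zero (pow_ne_zero 2 hx) (pow_ne_zero 2 ht))

theorem t00f_t00f {z : F × F × F} (hx : z.1 ≠ 0) (ht : z.2.1 ≠ 0) : t00f (t00f z) = z := by
  obtain ⟨x, t, y⟩ := z
  simp only at hx ht
  simp only [t00f]
  refine Prod.ext ?_ (Prod.ext ?_ ?_)
  · simp only
    field_simp
  · simp only
    field_simp
  · simp only
    field_simp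

/-- the domain of `J` is stable and `J` is an involution on it -/
theorem JD_JJf (h2 : (2 : F) ≠ 0) {z : F × F × F} (hU : OnU z) (h : JD z) :
    JD (JJf z) ∧ JJf (JJf z) = z ∧ OnU (JJf z) := by
  unfold JD at h
  obtain ⟨h3, h4⟩ := jD_jf h2 h
  have hU' := h3.1
  have f' := onU_facts hU'
  have f := onU_facts hU
  have e : t00f (JJf z) = jf (t00f z) := by
    unfold JJf
    exact t00f_t00f f'.1 f'.2.2.1
  refine ⟨?_, ?_, ?_⟩
  · unfold JD
    rw [e]
    exact h3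
  · show t00f (jf (t00f (JJf z))) = z
    rw [e, h4]
    exact t00f_t00f f.1 f.2.2.1
  · unfold JJf
    exact onU_t00f hU'

/-! ## The involution `ι` -/

theorem iota_x {x t D : F} (h0 : D ≠ 0) (hD : D = 3 * x * t - x - t - 1) :
    1 + (-2 * (x + t + 1) / D) * (x - 1) = (x + 1) * (t - 2 * x + 1) / D := by
  rw [eq_div_iff h0]
  have e : (-2 * (x + t + 1) / D) * D = -2 * (x + t + 1) := div_mul_cancel₀ _ h0
  linear_combination (x - 1) * e + hD

theorem iota_x1 {x t D : F} (h0 : D ≠ 0) (hD : D = 3 * x * t - x - t - 1) :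
    1 + (-2 * (x + t + 1) / D) * (x - 1) + 1 = 2 * x * (2 * t - x - 1) / D := by
  rw [eq_div_iff h0]
  have e : (-2 * (x + t + 1) / D) * D = -2 * (x + t + 1) := div_mul_cancel₀ _ h0
  linear_combination (x - 1) * e + 2 * hD

theorem iota_cubD {x t D : F} (h0 : D ≠ 0) (hD : D = 3 * x * t - x - t - 1) :
    cub (1 + (-2 * (x + t + 1) / D) * (x - 1)) =
      (-4 * (x + t + 1) * (t - 2 * x + 1) * (2 * t - x - 1) / D ^ 3) * cub x := by
  have e1 := iota_x h0 hD
  have e2 := iota_x1 h0 hD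
  have e3 : ∀ X : F, cub X = X * (X - 1) * (X + 1) := fun X => by unfold cub; ring
  have e4 : 1 + (-2 * (x + t + 1) / D) * (x - 1) - 1 = -2 * (x + t + 1) * (x - 1) / D := by ring
  rw [e3, e4, e2, e1, e3 x, div_mul_div_comm, div_mul_div_comm, div_mul_eq_mul_div]
  congr 1
  · ring
  · ring

theorem iota_cub1 {x t : F} (hD : 3 * x * t - x - t - 1 ≠ 0) :
    cub (1 + (-2 * (x + t + 1) / (3 * x * t - x - t - 1)) * (x - 1)) =
      (-4 * (x + t + 1) * (t - 2 * x + 1) * (2 * t - x - 1) / (3 * x * t - x - t - 1) ^ 3) *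
        cub x := iota_cubD hD rfl

theorem iota_cub2 {x t : F} (hD : 3 * x * t - x - t - 1 ≠ 0) :
    cub (1 + (-2 * (x + t + 1) / (3 * x * t - x - t - 1)) * (t - 1)) =
      (-4 * (x + t + 1) * (t - 2 * x + 1) * (2 * t - x - 1) / (3 * x * t - x - t - 1) ^ 3) *
        cub t := by
  have h := iota_cubD (x := t) (t := x) hD (by ring)
  rw [show t + x + 1 = x + t + 1 by ring] at h
  rw [h]
  congr 2
  ring

theorem iotaD_iotaf (h2 : (2 : F) ≠ 0) {z : F × F × F} (h : iotaD z) :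
    iotaD (iotaf z) ∧ iotaf (iotaf z) = z := by
  obtain ⟨x, t, y⟩ := z
  obtain ⟨hU, hD, ha, hb, hc⟩ := h
  have f := onU_facts hU
  simp only at hD ha hb hc f
  obtain ⟨fx, fx1, ft, ft1, ft2, ft3, fx2, fx3⟩ := f
  have h4 : (-4 : F) ≠ 0 := by
    have : (-4 : F) = -(2 * 2) := by norm_num
    rw [this]
    exact neg_ne_zero.2 (mul_ne_zero h2 h2)
  have hn2 : (-2 : F) ≠ 0 := neg_ne_zero.2 h2
  set L : F := -2 * (x + t + 1) / (3 * x * t - x - t - 1) with hL
  set r : F := -4 * (x + t + 1) * (t - 2 * x + 1) * (2 * t - x - 1) /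
    (3 * x * t - x - t - 1) ^ 3 with hr
  have hL0 : L ≠ 0 := div_ne_zero (mul_ne_zero hn2 ha) hD
  have hr0 : r ≠ 0 := div_ne_zero (mul_ne_zero (mul_ne_zero (mul_ne_zero h4 ha) hb) hc)
    (pow_ne_zero 3 hD)
  have ez : iotaf (x, t, y) = (1 + L * (x - 1), 1 + L * (t - 1), r * y) := rfl
  have e1 : cub (1 + L * (x - 1)) = r * cub x := iota_cub1 hD
  have e2 : cub (1 + L * (t - 1)) = r * cub t := iota_cub2 hD
  have hU' : OnU (iotaf (x, t, y)) := by
    rw [ez]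
    refine ⟨?_, mul_ne_zero hr0 hU.2⟩
    simp only
    rw [e1, e2]
    have := hU.1
    simp only at this
    linear_combination r ^ 2 * this
  -- the four linear forms at the image
  have hLD : L * (3 * x * t - x - t - 1) = -2 * (x + t + 1) := div_mul_cancel₀ _ hD
  have d1 : 3 * (1 + L * (x - 1)) * (1 + L * (t - 1)) - (1 + L * (x - 1)) - (1 + L * (t - 1)) - 1
      = 2 * L * ((t - 2 * x + 1) * (2 * t - x - 1)) / (3 * x * t - x - t - 1) := by
    rw [eq_div_iff hD]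
    linear_combination (3 * L * (x - 1) * (t - 1)) * hLD
  have d2 : (1 + L * (x - 1)) + (1 + L * (t - 1)) + 1
      = - ((t - 2 * x + 1) * (2 * t - x - 1)) / (3 * x * t - x - t - 1) := by
    rw [eq_div_iff hD]
    linear_combination (x + t - 2) * hLD
  have d3 : (1 + L * (t - 1)) - 2 * (1 + L * (x - 1)) + 1 = L * (t - 2 * x + 1) := by ring
  have d4 : 2 * (1 + L * (t - 1)) - (1 + L * (x - 1)) - 1 = L * (2 * t - x - 1) := by ring
  have c1 : 3 * (1 + L * (x - 1)) * (1 + L * (t - 1)) - (1 + L * (x - 1)) - (1 + L * (t - 1)) - 1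
      ≠ 0 := by
    rw [d1]
    exact div_ne_zero (mul_ne_zero (mul_ne_zero h2 hL0) (mul_ne_zero hb hc)) hD
  have c2 : (1 + L * (x - 1)) + (1 + L * (t - 1)) + 1 ≠ 0 := by
    rw [d2]
    exact div_ne_zero (neg_ne_zero.2 (mul_ne_zero hb hc)) hD
  have hI : iotaD (iotaf (x, t, y)) := by
    refine ⟨hU', ?_, ?_, ?_, ?_⟩
    · rw [ez]; exact c1
    · rw [ez]; exact c2
    · rw [ez]; simp only; rw [d3]; exact mul_ne_zero hL0 hb
    · rw [ez]; simp only; rw [d4]; exact mul_ne_zero hL0 hc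
  refine ⟨hI, ?_⟩
  have hLL : (-2 * ((1 + L * (x - 1)) + (1 + L * (t - 1)) + 1) /
      (3 * (1 + L * (x - 1)) * (1 + L * (t - 1)) - (1 + L * (x - 1)) - (1 + L * (t - 1)) - 1)) * L
      = 1 := by
    rw [d1, d2]
    have k1 : (t - 2 * x + 1) * (2 * t - x - 1) ≠ 0 := mul_ne_zero hb hc
    generalize (t - 2 * x + 1) * (2 * t - x - 1) = K at k1 ⊢
    generalize 3 * x * t - x - t - 1 = D at hD ⊢
    field_simp
  have g1 := iota_cub1 c1
  set L' : F := -2 * ((1 + L * (x - 1)) + (1 + L * (t - 1)) + 1) /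
      (3 * (1 + L * (x - 1)) * (1 + L * (t - 1)) - (1 + L * (x - 1)) - (1 + L * (t - 1)) - 1)
    with hL'
  set r' : F := -4 * ((1 + L * (x - 1)) + (1 + L * (t - 1)) + 1) *
      ((1 + L * (t - 1)) - 2 * (1 + L * (x - 1)) + 1) *
      (2 * (1 + L * (t - 1)) - (1 + L * (x - 1)) - 1) /
      (3 * (1 + L * (x - 1)) * (1 + L * (t - 1)) - (1 + L * (x - 1)) - (1 + L * (t - 1)) - 1) ^ 3
    with hr'
  have ez2 : iotaf (iotaf (x, t, y)) =
      (1 + L' * ((1 + L * (x - 1)) - 1), 1 + L' * ((1 + L * (t - 1)) - 1), r' * (r * y)) := rfl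
  have ex : 1 + L' * ((1 + L * (x - 1)) - 1) = x := by linear_combination (x - 1) * hLL
  have et : 1 + L' * ((1 + L * (t - 1)) - 1) = t := by linear_combination (t - 1) * hLL
  have hcx : cub x ≠ 0 := by
    unfold cub
    have : x ^ 3 - x = x * (x ^ 2 - 1) := by ring
    rw [this]
    exact mul_ne_zero fx fx1
  have hrr : r' * r = 1 := by
    apply mul_right_cancel₀ hcx
    rw [ex, e1] at g1
    linear_combination (-1) * g1
  rw [ez2]
  refine Prod.ext ex (Prod.ext et ?_)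
  simp only
  linear_combination y * hrr

end Pool.Agent.WAP.H90
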