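import Pool.Agent.Helper90_WAP.JD

/-!
CON for the letters `jj` and `io`: open domains and continuity.
-/

namespace Pool.Agent.WAP.H90

open Filter Topology

variable {F : Type} [NormedField F]

theorem cont_t00f {z : F × F × F} (hx : z.1 ≠ 0) (ht : z.2.1 ≠ 0) : ContinuousAt t00f z := by
  have c1 : ContinuousAt (fun z : F × F × F => z.1) z := continuous_fst.continuousAt
  have c2 : ContinuousAt (fun z : F × F × F => z.2.1) z :=
    (continuous_fst.comp continuous_snd).continuousAt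
  have c3 : ContinuousAt (fun z : F × F × F => z.2.2) z :=
    (continuous_snd.comp continuous_snd).continuousAt
  have k : z.1 ^ 2 * z.2.1 ^ 2 ≠ 0 := mul_ne_zero (pow_ne_zero 2 hx) (pow_ne_zero 2 ht)
  exact (continuousAt_const.div c1 hx).prodMk ((continuousAt_const.div c2 ht).prodMk
    (c3.div ((c1.pow 2).mul (c2.pow 2)) k))

theorem cont_j {z : F × F × F} (h : jD z) :
    ContinuousAt jw z ∧ ContinuousAt jd z ∧ ContinuousAt ja z ∧ ContinuousAt jx z ∧
      ContinuousAt jt z ∧ ContinuousAt jf z := by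
  have hx' := jx_ne h
  obtain ⟨hU, w1, xd, a1, da, g, xd', x1'⟩ := h
  obtain ⟨hx, h1, ht, ht1, h2, _⟩ := onU_facts hU
  have hw0 := jw_ne hU
  have ha : ja z + 1 ≠ 0 := by
    intro h0; apply a1; linear_combination h0
  have c1 : ContinuousAt (fun z : F × F × F => z.1) z := continuous_fst.continuousAt
  have c2 : ContinuousAt (fun z : F × F × F => z.2.1) z :=
    (continuous_fst.comp continuous_snd).continuousAt
  have c3 : ContinuousAt (fun z : F × F × F => z.2.2) z :=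
    (continuous_snd.comp continuous_snd).continuousAt
  have cw : ContinuousAt jw z := by
    unfold jw
    exact c3.div (((c1.pow 2).sub continuousAt_const).mul (c2.add continuousAt_const))
      (mul_ne_zero h1 h2)
  have cd : ContinuousAt jd z := by
    unfold jd
    exact cw.div (continuousAt_const.sub cw) (sub_ne_zero.2 w1.symm)
  have ca : ContinuousAt ja z := by
    unfold ja
    exact ((c1.mul c2).sub (cd.pow 2)).div (c1.sub cd) (sub_ne_zero.2 xd)
  have cx : ContinuousAt jx z := by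
    unfold jx
    exact ((cd.sub ca).mul ((cd.mul (cd.sub ca)).add (cw.pow 2))).div
      (((cw.pow 2).mul (ca.add continuousAt_const)).mul c1)
      (mul_ne_zero (mul_ne_zero (pow_ne_zero 2 hw0) ha) hx)
  have ct : ContinuousAt jt z := by
    unfold jt
    exact ca.add ((cd.mul (cd.sub ca)).div cx hx')
  refine ⟨cw, cd, ca, cx, ct, ?_⟩
  unfold jf
  exact cx.prodMk (ct.prodMk
    ((cw.mul ((cx.pow 2).sub continuousAt_const)).mul (ct.add continuousAt_const)))

/-- the domain of `j` is open in `U` -/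
theorem jD_open {z : F × F × F} (h : jD z) : ∀ᶠ z1 in 𝓝 z, OnU z1 → jD z1 := by
  obtain ⟨cw, cd, ca, cx, ct, cf⟩ := cont_j h
  obtain ⟨hU, w1, xd, a1, da, g, xd', x1'⟩ := h
  have c1 : ContinuousAt (fun z : F × F × F => z.1) z := continuous_fst.continuousAt
  filter_upwards [cw.eventually_ne w1, (c1.sub cd).eventually_ne (sub_ne_zero.2 xd),
    ca.eventually_ne a1, (cd.sub ca).eventually_ne (sub_ne_zero.2 da),
    ((cd.mul (cd.sub ca)).add (cw.pow 2)).eventually_ne g,
    (cx.sub cd).eventually_ne (sub_ne_zero.2 xd'), (cx.pow 2).eventually_ne x1'] with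
    z1 k1 k2 k3 k4 k5 k6 k7 hU1
  exact ⟨hU1, k1, sub_ne_zero.1 k2, k3, sub_ne_zero.1 k4, k5, sub_ne_zero.1 k6, k7⟩

theorem JD_cont (h2 : (2 : F) ≠ 0) {z : F × F × F} (hU : OnU z) (h : JD z) :
    ContinuousAt JJf z ∧ ∀ᶠ z1 in 𝓝 z, OnU z1 → JD z1 := by
  unfold JD at h
  have f := onU_facts hU
  have ct := cont_t00f f.1 f.2.2.1
  have f' := onU_facts (jD_jf h2 h).1.1
  have ct' := cont_t00f f'.1 f'.2.2.1
  have cj : ContinuousAt jf (t00f z) := (cont_j h).2.2.2.2.2
  refine ⟨?_, ?_⟩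
  · have e : (JJf : F × F × F → F × F × F) = fun z => t00f (jf (t00f z)) := rfl
    rw [e]
    exact ContinuousAt.comp (f := fun z => jf (t00f z)) ct' (ContinuousAt.comp cj ct)
  · have := ct.eventually (jD_open h)
    filter_upwards [this] with z1 h1 hU1
    exact h1 (onU_t00f hU1)

theorem iotaD_cont {z : F × F × F} (h : iotaD z) :
    ContinuousAt iotaf z ∧ ∀ᶠ z1 in 𝓝 z, OnU z1 → iotaD z1 := by
  obtain ⟨hU, hD, ha, hb, hc⟩ := h
  have c1 : ContinuousAt (fun z : F × F × F => z.1) z := continuous_fst.continuousAt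
  have c2 : ContinuousAt (fun z : F × F × F => z.2.1) z :=
    (continuous_fst.comp continuous_snd).continuousAt
  have c3 : ContinuousAt (fun z : F × F × F => z.2.2) z :=
    (continuous_snd.comp continuous_snd).continuousAt
  have cD : ContinuousAt (fun z : F × F × F => 3 * z.1 * z.2.1 - z.1 - z.2.1 - 1) z :=
    ((((continuousAt_const.mul c1).mul c2).sub c1).sub c2).sub continuousAt_const
  have cA : ContinuousAt (fun z : F × F × F => z.1 + z.2.1 + 1) z :=
    (c1.add c2).add continuousAt_const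
  have cB : ContinuousAt (fun z : F × F × F => z.2.1 - 2 * z.1 + 1) z :=
    (c2.sub (continuousAt_const.mul c1)).add continuousAt_const
  have cC : ContinuousAt (fun z : F × F × F => 2 * z.2.1 - z.1 - 1) z :=
    ((continuousAt_const.mul c2).sub c1).sub continuousAt_const
  have cL : ContinuousAt (fun z : F × F × F =>
      -2 * (z.1 + z.2.1 + 1) / (3 * z.1 * z.2.1 - z.1 - z.2.1 - 1)) z :=
    (continuousAt_const.mul cA).div cD hD
  have cR : ContinuousAt (fun z : F × F × F =>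
      -4 * (z.1 + z.2.1 + 1) * (z.2.1 - 2 * z.1 + 1) * (2 * z.2.1 - z.1 - 1)
      / (3 * z.1 * z.2.1 - z.1 - z.2.1 - 1) ^ 3) z :=
    (((continuousAt_const.mul cA).mul cB).mul cC).div (cD.pow 3) (pow_ne_zero 3 hD)
  refine ⟨?_, ?_⟩
  · unfold iotaf
    exact (continuousAt_const.add (cL.mul (c1.sub continuousAt_const))).prodMk
      ((continuousAt_const.add (cL.mul (c2.sub continuousAt_const))).prodMk (cR.mul c3))
  · filter_upwards [cD.eventually_ne hD, cA.eventually_ne ha, cB.eventually_ne hb,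
      cC.eventually_ne hc] with z1 k1 k2 k3 k4 hU1
    exact ⟨hU1, k1, k2, k3, k4⟩

variable [Algebra GaussianInt F]

/-- CON for `jj` -/
theorem con_jj (h2 : (2 : F) ≠ 0) (z z' : F × F × F) (h : Step .jj z z')
    (V : Set (F × F × F)) (hV : IsOpen V) (hz : z' ∈ V) :
    ∃ O : Set (F × F × F), IsOpen O ∧ z ∈ O ∧
      ∀ z1 ∈ O, OnU z1 → ∃ z2 ∈ V, Step .jj z1 z2 := by
  obtain ⟨hU, hU', hD, rfl⟩ := h
  obtain ⟨hc, ho⟩ := JD_cont h2 hU hD
  have h3 := ho.and (hc.eventually (hV.mem_nhds hz))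
  obtain ⟨O, hO2, hO, hO1⟩ := eventually_nhds_iff.1 h3
  refine ⟨O, hO, hO1, fun z1 hz1 hU1 => ?_⟩
  obtain ⟨k1, k2⟩ := hO2 z1 hz1
  exact ⟨JJf z1, k2, hU1, (JD_JJf h2 hU1 (k1 hU1)).2.2, k1 hU1, rfl⟩

/-- CON for `io` -/
theorem con_io (h2 : (2 : F) ≠ 0) (z z' : F × F × F) (h : Step .io z z')
    (V : Set (F × F × F)) (hV : IsOpen V) (hz : z' ∈ V) :
    ∃ O : Set (F × F × F), IsOpen O ∧ z ∈ O ∧
      ∀ z1 ∈ O, OnU z1 → ∃ z2 ∈ V, Step .io z1 z2 := by
  obtain ⟨hU, hU', hD, rfl⟩ := h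
  obtain ⟨hc, ho⟩ := iotaD_cont hD
  have h3 := ho.and (hc.eventually (hV.mem_nhds hz))
  obtain ⟨O, hO2, hO, hO1⟩ := eventually_nhds_iff.1 h3
  refine ⟨O, hO, hO1, fun z1 hz1 hU1 => ?_⟩
  obtain ⟨k1, k2⟩ := hO2 z1 hz1
  exact ⟨iotaf z1, k2, hU1, (iotaD_iotaf h2 (k1 hU1)).1.1, k1 hU1, rfl⟩

end Pool.Agent.WAP.H90
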