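import Pool.Agent.Helper90_WAP.JPoly
import Pool.Agent.Helper90_WAP.JCon

/-!
DEN for the letters `jj` and `io`: near every point of `U` there are points of the domain
(with the same `t` for `j` and `io`).
-/

namespace Pool.Agent.WAP.H90

open Filter Topology Polynomial

section loc
variable {F : Type} [NormedField F]

/-- local square roots and small nonzero elements -/
structure LocSq (F : Type) [NormedField F] : Prop where
  two : (2 : F) ≠ 0
  small : ∃ c : F, c ≠ 0 ∧ ‖c‖ < 1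
  sq : ∃ C : ℝ, 0 < C ∧ ∃ r0 : ℝ, 0 < r0 ∧ ∀ x : F, ‖x - 1‖ < r0 →
    ∃ r : F, r ^ 2 = x ∧ ‖r - 1‖ ≤ C * ‖x - 1‖

theorem two_ne_of_isLoc [Algebra GaussianInt F] {ϖ : GaussianInt} (h : IsLoc F ϖ) :
    (2 : F) ≠ 0 := by
  intro h0
  have e2 : algebraMap GaussianInt F 2 = 0 := by
    rw [map_ofNat]; exact h0
  have d2 : ϖ ∣ 2 := by
    rw [← h.lt_one, e2, norm_zero]
    exact one_pos
  -- `(1 + i) ^ 2 = 2 i`
  have hl : (⟨1, 1⟩ : GaussianInt) * ⟨1, 1⟩ = 2 * ⟨0, 1⟩ := by decide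
  have d3 : ϖ ∣ (⟨1, 1⟩ : GaussianInt) * ⟨1, 1⟩ := by
    rw [hl]; exact Dvd.dvd.mul_right d2 _
  have d4 : ϖ ∣ (⟨1, 1⟩ : GaussianInt) := by
    rcases h.prime.dvd_or_dvd d3 with h1 | h1 <;> exact h1
  have el : algebraMap GaussianInt F ⟨1, 1⟩ = 0 := by
    have : algebraMap GaussianInt F ⟨1, 1⟩ * algebraMap GaussianInt F ⟨1, 1⟩ = 0 := by
      rw [← map_mul, hl, map_mul, e2, zero_mul]
    exact mul_self_eq_zero.1 this
  obtain ⟨c, hc⟩ := d4
  have hn : Zsqrtd.norm ϖ * Zsqrtd.norm c = 2 := by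
    rw [← Zsqrtd.norm_mul, ← hc]
    decide
  have hunit : ¬ IsUnit ϖ := h.prime.not_unit
  have n1 : 0 ≤ Zsqrtd.norm ϖ := GaussianInt.norm_nonneg ϖ
  have n2 : 0 ≤ Zsqrtd.norm c := GaussianInt.norm_nonneg c
  have hne : Zsqrtd.norm ϖ ≠ 1 := by
    intro h1
    apply hunit
    rw [← Zsqrtd.norm_eq_one_iff, h1]
    rfl
  have hc1 : Zsqrtd.norm c = 1 := by
    have hle : Zsqrtd.norm ϖ ≤ 2 := Int.le_of_dvd two_pos (Dvd.intro _ hn)
    have hle' : Zsqrtd.norm c ≤ 2 := Int.le_of_dvd two_pos (Dvd.intro_left _ hn)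
    interval_cases h5 : Zsqrtd.norm ϖ
    · omega
    · omega
    · omega
  have hcu : IsUnit c := by
    rw [← Zsqrtd.norm_eq_one_iff, hc1]
    rfl
  obtain ⟨u, rfl⟩ := hcu
  have hz : algebraMap GaussianInt F ϖ = 0 := by
    have h6 : ϖ = (⟨1, 1⟩ : GaussianInt) * ((u⁻¹ : GaussianIntˣ) : GaussianInt) := by
      rw [hc, mul_assoc, Units.mul_inv, mul_one]
    rw [h6, map_mul, el, zero_mul]
  have := h.uni
  rw [hz, norm_zero] at this
  exact lt_irrefl _ this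

theorem locSq_of_isLoc [Algebra GaussianInt F] {ϖ : GaussianInt} (h : IsLoc F ϖ) : LocSq F := by
  have h2 := two_ne_of_isLoc h
  refine ⟨h2, ⟨algebraMap GaussianInt F ϖ, ?_, ?_⟩, 1 / ‖(2 : F)‖, ?_, ‖(4 : F)‖, ?_, ?_⟩
  · exact norm_pos_iff.1 h.uni
  · rw [h.lt_one]
  · exact div_pos one_pos (norm_pos_iff.2 h2)
  · have : (4 : F) = 2 * 2 := by norm_num
    rw [this, norm_mul]
    exact mul_pos (norm_pos_iff.2 h2) (norm_pos_iff.2 h2)
  · intro x hx
    obtain ⟨r, hr, hr1⟩ := h.sqrt x hx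
    refine ⟨r, hr, ?_⟩
    rw [div_mul_eq_mul_div, one_mul, le_div_iff₀ (norm_pos_iff.2 h2)]
    exact hr1

theorem locSq_of_isCx (h : IsCx F) : LocSq F := by
  obtain ⟨σ, hσ⟩ := h
  have n2 : ‖(2 : F)‖ = 2 := by
    rw [← hσ, map_ofNat]
    simp
  have h2 : (2 : F) ≠ 0 := by
    intro h0; rw [h0, norm_zero] at n2; norm_num at n2
  refine ⟨h2, ⟨1 / 2, ?_, ?_⟩, 2, two_pos, 1, one_pos, ?_⟩
  · exact div_ne_zero one_ne_zero h2
  · rw [norm_div, n2, norm_one]; norm_num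
  · intro x _
    obtain ⟨s, hs⟩ := IsAlgClosed.exists_pow_nat_eq (σ x) (n := 2) two_pos
    have hr : (σ.symm s) ^ 2 = x := by
      apply σ.injective
      rw [map_pow, RingEquiv.apply_symm_apply, hs]
    -- choose the sign
    have key : ∀ r : F, r ^ 2 = x → 1 ≤ ‖r + 1‖ → ‖r - 1‖ ≤ 2 * ‖x - 1‖ := by
      intro r hr hr1
      have : x - 1 = (r - 1) * (r + 1) := by rw [← hr]; ring
      rw [this, norm_mul]
      nlinarith [norm_nonneg (r - 1)]
    by_cases h1 : 1 ≤ ‖σ.symm s + 1‖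
    · exact ⟨σ.symm s, hr, key _ hr h1⟩
    · refine ⟨- σ.symm s, by rw [neg_sq, hr], key _ (by rw [neg_sq, hr]) ?_⟩
      push Not at h1
      have t1 : ‖(2 : F)‖ ≤ ‖σ.symm s + 1‖ + ‖- σ.symm s + 1‖ := by
        have : (2 : F) = (σ.symm s + 1) + (- σ.symm s + 1) := by ring
        rw [this]
        exact norm_add_le _ _
      rw [n2] at t1
      linarith

theorem locSq_of_isLC [Algebra GaussianInt F] (h : IsLC F) : LocSq F := by
  rcases h with ⟨ϖ, h⟩ | h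
  · exact locSq_of_isLoc h
  · exact locSq_of_isCx h

/-- every neighbourhood of `x0` contains points outside a finite set -/
theorem exists_near (h : LocSq F) {B : Set F} (hB : B.Finite) {x0 : F} {O : Set F}
    (hO : O ∈ 𝓝 x0) : ∃ x ∈ O, x ∉ B := by
  obtain ⟨c, hc0, hc1⟩ := h.small
  have ht : Tendsto (fun n : ℕ => x0 + c ^ n) atTop (𝓝 (x0 + 0)) :=
    tendsto_const_nhds.add (tendsto_pow_atTop_nhds_zero_of_norm_lt_one hc1)
  rw [add_zero] at ht
  have he := ht.eventually hO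
  obtain ⟨N, hN⟩ := eventually_atTop.1 he
  have hinj : Function.Injective (fun n : ℕ => x0 + c ^ (N + n)) := by
    intro a b hab
    simp only [add_right_inj] at hab
    have hn : ‖c‖ ^ (N + a) = ‖c‖ ^ (N + b) := by rw [← norm_pow, ← norm_pow, hab]
    have hst : StrictAnti (fun n : ℕ => ‖c‖ ^ n) :=
      pow_right_strictAnti₀ (norm_pos_iff.2 hc0) hc1
    have := hst.injective hn
    omega
  by_contra hcon
  push Not at hcon
  have hsub : Set.range (fun n : ℕ => x0 + c ^ (N + n)) ⊆ B := by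
    rintro _ ⟨n, rfl⟩
    exact hcon _ (hN _ (Nat.le_add_right _ _))
  exact Set.infinite_range_of_injective hinj (hB.subset hsub)

/-- points of `U` with the same `t` near a given one, avoiding finitely many `x` -/
theorem exists_near_x (h : LocSq F) {z : F × F × F} (hU : OnU z) {V : Set (F × F × F)}
    (hV : V ∈ 𝓝 z) {B : Set F} (hB : B.Finite) :
    ∃ x y : F, (x, z.2.1, y) ∈ V ∧ OnU (x, z.2.1, y) ∧ x ∉ B := by
  obtain ⟨x0, t, y0⟩ := z
  obtain ⟨C, hC, r0, hr0, hsq⟩ := h.sq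
  have hy0 : y0 ≠ 0 := hU.2
  have he : y0 ^ 2 = cub x0 * cub t := hU.1
  have hy2 : 0 < ‖y0‖ := norm_pos_iff.2 hy0
  obtain ⟨ε, hε, hball⟩ := Metric.mem_nhds_iff.1 hV
  -- the function `x ↦ f(x) f(t) / y0 ^ 2 - 1` tends to 0
  have hcont : Continuous (fun x : F => cub x * cub t / y0 ^ 2 - 1) := by
    unfold cub
    fun_prop
  have hlim : Tendsto (fun x : F => ‖cub x * cub t / y0 ^ 2 - 1‖) (𝓝 x0) (𝓝 0) := by
    have := (hcont.norm.tendsto x0)
    rw [← he, div_self (pow_ne_zero 2 hy0), sub_self, norm_zero] at this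
    exact this
  have k1 : ∀ᶠ x in 𝓝 x0, ‖cub x * cub t / y0 ^ 2 - 1‖ < r0 := hlim.eventually (gt_mem_nhds hr0)
  have hη : 0 < min (1 / 2) (ε / (2 * ‖y0‖)) / C :=
    div_pos (lt_min (by norm_num) (div_pos hε (by positivity))) hC
  have k2 : ∀ᶠ x in 𝓝 x0, ‖cub x * cub t / y0 ^ 2 - 1‖ < min (1 / 2) (ε / (2 * ‖y0‖)) / C :=
    hlim.eventually (gt_mem_nhds hη)
  have k3 : ∀ᶠ x in 𝓝 x0, x ∈ Metric.ball x0 ε := Metric.ball_mem_nhds x0 hε
  obtain ⟨x, ⟨⟨hx1, hx2⟩, hx3⟩, hxB⟩ := exists_near h hB ((k1.and k2).and k3)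
  obtain ⟨r, hr, hr1⟩ := hsq _ hx1
  have hr2 : ‖r - 1‖ < min (1 / 2) (ε / (2 * ‖y0‖)) := by
    refine lt_of_le_of_lt hr1 ?_
    rw [lt_div_iff₀ hC] at hx2
    rw [mul_comm]
    exact hx2
  have hr3 : ‖r - 1‖ < 1 / 2 := lt_of_lt_of_le hr2 (min_le_left _ _)
  have hr4 : ‖r - 1‖ < ε / (2 * ‖y0‖) := lt_of_lt_of_le hr2 (min_le_right _ _)
  have hrn : r ≠ 0 := by
    intro h0
    rw [h0, zero_sub, norm_neg, norm_one] at hr3
    norm_num at hr3
  refine ⟨x, r * y0, ?_, ⟨?_, mul_ne_zero hrn hy0⟩, hxB⟩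
  · apply hball
    rw [Metric.mem_ball, Prod.dist_eq, Prod.dist_eq]
    refine max_lt (Metric.mem_ball.1 hx3) (max_lt ?_ ?_)
    · simp only [dist_self]; exact hε
    · simp only
      rw [dist_eq_norm]
      have e1 : r * y0 - y0 = (r - 1) * y0 := by ring
      rw [e1, norm_mul]
      rw [lt_div_iff₀ (by positivity)] at hr4
      nlinarith [norm_nonneg (r - 1)]
  · show (r * y0) ^ 2 = cub x * cub t
    rw [mul_pow, hr]
    exact div_mul_cancel₀ _ (pow_ne_zero 2 hy0)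

theorem finite_roots {p : F[X]} (hp : p ≠ 0) : {x : F | p.eval x = 0}.Finite := by
  classical
  have : {x : F | p.eval x = 0} ⊆ (p.roots.toFinset : Set F) := by
    intro x hx
    simp only [Finset.mem_coe, Multiset.mem_toFinset]
    exact (mem_roots hp).2 hx
  exact (Finset.finite_toSet _).subset this

/-- density of the domain of `j` -/
theorem dense_jD (h : LocSq F) {z : F × F × F} (hU : OnU z) {V : Set (F × F × F)}
    (hV : V ∈ 𝓝 z) : ∃ z1 ∈ V, jD z1 := by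
  have f := onU_facts hU
  have hP := PJ_ne h.two f.2.2.1 f.2.2.2.1 f.2.2.2.2.1
  obtain ⟨x, y, h1, h2, h3⟩ := exists_near_x h hU hV (finite_roots hP)
  exact ⟨_, h1, jD_of_PJ h.two h2 h3⟩

/-- density of the domain of `J` -/
theorem dense_JD (h : LocSq F) {z : F × F × F} (hU : OnU z) {V : Set (F × F × F)}
    (hV : V ∈ 𝓝 z) : ∃ z1 ∈ V, OnU z1 ∧ JD z1 := by
  have f := onU_facts hU
  have hU' := onU_t00f hU
  have f' := onU_facts hU'
  have hc := cont_t00f f'.1 f'.2.2.1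
  have hV' : t00f ⁻¹' V ∈ 𝓝 (t00f z) := by
    apply hc.preimage_mem_nhds
    rw [t00f_t00f f.1 f.2.2.1]
    exact hV
  obtain ⟨z1, h1, h2⟩ := dense_jD h hU' hV'
  have f1 := onU_facts h2.1
  refine ⟨t00f z1, h1, onU_t00f h2.1, ?_⟩
  unfold JD
  rw [t00f_t00f f1.1 f1.2.2.1]
  exact h2

noncomputable def PI (t : F) : F[X] :=
  (3 * X * C t - X - C t - 1) * (X + C t + 1) * (C t - 2 * X + 1) * (2 * C t - X - 1)

theorem PI_ne (h2 : (2 : F) ≠ 0) {t : F} (h0 : t ≠ 0) (h1 : t - 1 ≠ 0) : PI t ≠ 0 := by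
  unfold PI
  refine mul_ne_zero (mul_ne_zero (mul_ne_zero ?_ ?_) ?_) ?_
  · intro h
    have := congrArg (Polynomial.eval 1) h
    simp only [eval_add, eval_sub, eval_mul, eval_X, eval_C, eval_one, eval_ofNat, eval_zero] at this
    apply mul_ne_zero h2 h1
    linear_combination this
  · intro h
    have := congrArg (Polynomial.eval (-1)) h
    simp only [eval_add, eval_sub, eval_mul, eval_X, eval_C, eval_one, eval_ofNat, eval_zero] at this
    apply h0
    linear_combination this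
  · intro h
    have := congrArg (Polynomial.eval 1) h
    simp only [eval_add, eval_sub, eval_mul, eval_X, eval_C, eval_one, eval_ofNat, eval_zero] at this
    apply h1
    linear_combination this
  · intro h
    have := congrArg (Polynomial.eval 1) h
    simp only [eval_add, eval_sub, eval_mul, eval_X, eval_C, eval_one, eval_ofNat, eval_zero] at this
    apply mul_ne_zero h2 h1
    linear_combination this

theorem dense_io (h : LocSq F) {z : F × F × F} (hU : OnU z) {V : Set (F × F × F)}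
    (hV : V ∈ 𝓝 z) : ∃ z1 ∈ V, iotaD z1 := by
  have f := onU_facts hU
  have hP := PI_ne h.two f.2.2.1 f.2.2.2.1
  obtain ⟨x, y, h1, h2, h3⟩ := exists_near_x h hU hV (finite_roots hP)
  refine ⟨_, h1, ?_⟩
  have h4 : (PI z.2.1).eval x ≠ 0 := h3
  unfold PI at h4
  simp only [eval_add, eval_sub, eval_mul, eval_X, eval_C, eval_one, eval_ofNat,
    mul_ne_zero_iff] at h4
  obtain ⟨⟨⟨g1, g2⟩, g3⟩, g4⟩ := h4
  exact ⟨h2, g1, g2, g3, g4⟩

variable [Algebra GaussianInt F]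

/-- DEN for `jj` -/
theorem den_jj (h : LocSq F) (V : Set (F × F × F)) (hV : IsOpen V) (hz : ∃ z ∈ V, OnU z) :
    ∃ z ∈ V, ∃ z', Step .jj z z' := by
  obtain ⟨z, hz, hU⟩ := hz
  obtain ⟨z1, h1, h2, h3⟩ := dense_JD h hU (hV.mem_nhds hz)
  exact ⟨z1, h1, JJf z1, h2, (JD_JJf h.two h2 h3).2.2, h3, rfl⟩

/-- DEN for `io` -/
theorem den_io (h : LocSq F) (V : Set (F × F × F)) (hV : IsOpen V) (hz : ∃ z ∈ V, OnU z) :
    ∃ z ∈ V, ∃ z', Step .io z z' := by
  obtain ⟨z, hz, hU⟩ := hz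
  obtain ⟨z1, h1, h2⟩ := dense_io h hU (hV.mem_nhds hz)
  exact ⟨z1, h1, iotaf z1, h2.1, (iotaD_iotaf h.two h2).1.1, h2, rfl⟩

end loc

end Pool.Agent.WAP.H90
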