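import Pool.Agent.WAP.StmtsT
import Pool.Agent.Helper90_WAP.JDen

/-! DNJ -/

namespace Pool.Agent.WAP.H90

theorem dnj : DnjStmt := by
  intro F _ _ hF l hl V hV hz
  rcases hl with rfl | rfl
  · exact den_io (locSq_of_isLC hF) V hV hz
  · exact den_jj (locSq_of_isLC hF) V hV hz

end Pool.Agent.WAP.H90
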