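import Pool.Agent.Helper90_WAP.JLoc
import Pool.Agent.Helper90_WAP.JDen

/-! JCO -/

namespace Pool.Agent.WAP.H90

theorem jco : JcoStmt := fun _ _ _ _ h _ ρ h1 => jco_gen (two_ne_of_isLoc h) ρ h1

end Pool.Agent.WAP.H90
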