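import Pool.Agent.Helper90_WAP.Proj

/-! PRJ: from the open part to the smooth projective surface -/

namespace Pool.Agent.WAP.H90

open IsDedekindDomain

theorem prj (blo : BloStmt) (bfi : BfiStmt) : PrjStmt := by
  intro K _ _ _ σ
  have h := bfi K σ
  have hloc : ∀ v : HeightOneSpectrum GaussianInt, LocSq (v.adicCompletion K) := fun v => by
    obtain ⟨ϖ, _, h1⟩ := blo K v
    exact locSq_of_isLoc h1
  have hcx : LocSq ℂ := locSq_of_isCx ⟨RingEquiv.refl ℂ, fun _ => rfl⟩
  have d1 : DenseRange (Pi.map (fun v : HeightOneSpectrum GaussianInt =>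
      XU.incl (F := v.adicCompletion K))) :=
    DenseRange.piMap (fun v => denseRange_incl (hloc v))
  have d2 := d1.prodMap (denseRange_incl hcx)
  have hc : Continuous (Prod.map (Pi.map (fun v : HeightOneSpectrum GaussianInt =>
      XU.incl (F := v.adicCompletion K))) (XU.incl (F := ℂ))) :=
    (Continuous.piMap (fun v => cont_incl)).prodMap cont_incl
  have d3 := d2.comp h hc
  refine Dense.mono ?_ d3
  rintro _ ⟨z, rfl⟩
  refine ⟨XU.incl z, ?_⟩
  refine Prod.ext ?_ ?_
  · funext v
    exact XU_incl_map _ z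
  · exact XU_incl_map _ z

end Pool.Agent.WAP.H90
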