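import Pool.Agent.Helper90_WAP.J

/-!
Normal form of the involution `j`: the surface `X` is birational to the double plane
`z ^ 2 - s (w, b) * z + w * g (w, b) = 0` and `j` is the covering involution `z ↦ z' = s - z`.
With `e = 1 / (1 - w)`, `c = e - w * b`:
`g = c * (e * c + 1) / (1 + w ^ 2 * b)`,
`s = (b * (w ^ 2 * b - 1) - w ^ 2 * e * c) / (1 + w ^ 2 * b) - w * e`.
The pair `(z, z') = (x, x ∘ j)` is a system of local coordinates at the exceptional curve over
`(0, 0)` (`z = 0`), at the curve `t = 0` (`z' = 0`) and at their common point.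
-/

namespace Pool.Agent.Helper90_WAP

variable {F : Type*} [Field F]

/-- A point of the double plane with its conjugate; `z * u = w`, `u = z' / g`, `u' = z / g`. -/
structure DP (w b e c z z' u u' : F) : Prop where
  he : e * (1 - w) = 1
  hc : c = e - w * b
  hs : (z + z' + w * e) * (1 + w ^ 2 * b) = b * (w ^ 2 * b - 1) - w ^ 2 * e * c
  hu : u * (c * (e * c + 1)) = z' * (1 + w ^ 2 * b)
  hu' : u' * (c * (e * c + 1)) = z * (1 + w ^ 2 * b)
  hz : z * u = w
  hz' : z' * u' = w

theorem DP.symm {w b e c z z' u u' : F} (h : DP w b e c z z' u u') : DP w b e c z' z u' u where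
  he := h.he
  hc := h.hc
  hs := by linear_combination h.hs
  hu := h.hu'
  hu' := h.hu
  hz := h.hz'
  hz' := h.hz

/-- the `t`-coordinate of the point -/
def dpT (w b e c u : F) : F := w * (w * b + u * e * c)

/-- the `y`-coordinate of the point -/
def dpY (w b e c z u : F) : F := w * (z ^ 2 - 1) * (dpT w b e c u + 1)

theorem DP.bracket {w b e c z z' u u' : F} (h : DP w b e c z z' u u') :
    w * c * (e * c + 1) + w * e * (b * (w ^ 2 * b - 1) - w ^ 2 * e * c - w * e * (1 + w ^ 2 * b))
      + (2 * w ^ 2 * b * e * c - e * c + w ^ 2 * b + 1) = 0 := by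
  rw [h.hc]
  linear_combination (-1 - e + w * e ^ 2 + w ^ 2 * e ^ 2) * h.he

/-- `z * t = w ^ 2 * (z * b + e * c)` -/
theorem DP.mul_dpT {w b e c z z' u u' : F} (h : DP w b e c z z' u u') :
    z * dpT w b e c u = w ^ 2 * (z * b + e * c) := by
  unfold dpT
  linear_combination (w * e * c) * h.hz

/-- the reduced equation of the surface in the chart -/
theorem DP.reduced {w b e c z z' u u' : F} (h : DP w b e c z z' u u') :
    (z * b + e * c) * (dpT w b e c u - 1) = (z ^ 2 - 1) * (dpT w b e c u + 1) := by
  unfold dpT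
  linear_combination (b * w * e * c - w * e * c * z + c * (e * c + 1)) * h.hz
    + (w * e - z) * h.hu + (w * e - z) * h.hs + h.bracket

/-- fibre equation -/
theorem DP.fibre {w b e c z z' u u' : F} (h : DP w b e c z z' u u') :
    w ^ 2 * (z ^ 2 - 1) * (dpT w b e c u + 1) = z * dpT w b e c u * (dpT w b e c u - 1) := by
  linear_combination (-w ^ 2) * h.reduced - (dpT w b e c u - 1) * h.mul_dpT

/-- the point of the double plane gives a point of the surface -/
theorem DP.onX {w b e c z z' u u' : F} (h : DP w b e c z z' u u') :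
    OnX z (dpT w b e c u) (dpY w b e c z u) := onX_of_fibre h.fibre

/-- `j` is the covering involution: the two points are `JRel`-related -/
theorem DP.jRel {w b e c z z' u u' : F} (h : DP w b e c z z' u u') :
    JRel z (dpT w b e c u) (dpY w b e c z u) w (w * e) (w ^ 2 * b)
      z' (dpT w b e c u') (dpY w b e c z' u') where
  hw := by unfold dpY; ring
  hδ := by linear_combination w * h.he
  hα := by
    linear_combination (-1) * h.mul_dpT - (w ^ 2 * e) * h.hc
  hx := by
    have e1 : z * z' * (1 + w ^ 2 * b) = w * (c * (e * c + 1)) := by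
      linear_combination (c * (e * c + 1)) * h.hz - z * h.hu
    have e2 : w * e - w ^ 2 * b = w * c := by rw [h.hc]; ring
    rw [e2]
    linear_combination w ^ 2 * e1
  ht := by
    have e2 : w * e - w ^ 2 * b = w * c := by rw [h.hc]; ring
    rw [e2]
    unfold dpT
    linear_combination (w * e * c) * h.hz'
  hy := by unfold dpY; ring

/-- sum of the roots of a cubic with three roots of which two are different and the product is
right -/
theorem vieta_sum {a b c d r s u : F} (hrs : r ≠ s) (hr0 : r ≠ 0) (hs0 : s ≠ 0)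
    (h1 : a * r ^ 3 + b * r ^ 2 + c * r + d = 0)
    (h2 : a * s ^ 3 + b * s ^ 2 + c * s + d = 0)
    (h3 : a * (r * s * u) = - d) :
    a * (r + s + u) = - b := by
  have hsub : r - s ≠ 0 := sub_ne_zero.2 hrs
  have e1 : a * (r ^ 2 + r * s + s ^ 2) + b * (r + s) + c = 0 := by
    apply mul_left_cancel₀ hsub
    linear_combination h1 - h2
  have e2 : d = r * s * (a * (r + s) + b) := by
    linear_combination h1 - r * e1
  have e3 : a * u + (a * (r + s) + b) = 0 := by
    apply mul_left_cancel₀ (mul_ne_zero hr0 hs0)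
    linear_combination h3 - e2
  linear_combination e3

/-- conversely a generic point of the surface comes from the double plane -/
theorem dp_of_jRel {x t y w δ α x' t' y' : F} (h : JRel x t y w δ α x' t' y')
    (hX : OnX x t y) (h1 : x ^ 2 - 1 ≠ 0) (h2 : t + 1 ≠ 0) (hx0 : x ≠ 0) (hw0 : w ≠ 0)
    (hxδ : x ≠ δ) (hx'0 : x' ≠ 0) :
    DP w (α / w ^ 2) (δ / w) ((δ - α) / w) x x' (w / x) (w / x') := by
  have hf := fibre_of_onX hX h.hw h1 h2
  have hδ' : δ = w * (δ + 1) := by linear_combination h.hδ
  have hδ0 : δ ≠ 0 := by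
    rintro rfl
    apply hw0
    linear_combination (-1) * h.hδ
  have hxt : x * t = α * x + δ * (δ - α) := by linear_combination (-1) * h.hα
  have c1 : (- w ^ 2 * (α + 1)) * x ^ 3 + (α * (α - 1) - w ^ 2 * (δ * (δ - α))) * x ^ 2
      + (δ * (δ - α) * (2 * α - 1) + w ^ 2 * (α + 1)) * x
      + δ * (δ - α) * (δ * (δ - α) + w ^ 2) = 0 := by
    have e : (x * t) * (x * t - x) - w ^ 2 * (x ^ 2 - 1) * (x * t + x) = 0 := by
      linear_combination (- x) * hf
    rw [hxt] at e
    linear_combination e
  have c2 : (- w ^ 2 * (α + 1)) * δ ^ 3 + (α * (α - 1) - w ^ 2 * (δ * (δ - α))) * δ ^ 2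
      + (δ * (δ - α) * (2 * α - 1) + w ^ 2 * (α + 1)) * δ
      + δ * (δ - α) * (δ * (δ - α) + w ^ 2) = 0 := by
    linear_combination (δ * (δ - 1) * (δ + w * (δ + 1))) * hδ'
  have c3 : (- w ^ 2 * (α + 1)) * (x * δ * x') = - (δ * (δ - α) * (δ * (δ - α) + w ^ 2)) := by
    linear_combination (- δ) * h.hx
  have hv := vieta_sum hxδ hx0 hδ0 c1 c2 c3
  refine ⟨?_, ?_, ?_, ?_, ?_, ?_, ?_⟩
  · field_simp
    linear_combination h.hδ
  · field_simp
  · field_simp
    linear_combination (-1) * hv
  · field_simp
    linear_combination (-1) * h.hx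
  · field_simp
    linear_combination (-1) * h.hx
  · field_simp
  · field_simp

end Pool.Agent.Helper90_WAP
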