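import Pool.Agent.Helper90_WAP.J

/-!
The involution `j` with the regular formula of `α`: functions, the symmetric domain, `j (j p) = p`.
-/

namespace Pool.Agent.Helper90_WAP

variable {F : Type*} [Field F]

/-- the relation `p ↦ p'` of the involution, with the regular formula of `α` -/
structure JReg (x t y w δ α x' t' y' : F) : Prop where
  hw : w * ((x ^ 2 - 1) * (t + 1)) = y
  hδ : δ * (1 - w) = w
  hα : α * (1 - t - 2 * w) = - w * (2 * t + w * (1 + t) * (x + δ))
  hx : x' * (w ^ 2 * (α + 1) * x) = (δ - α) * (δ * (δ - α) + w ^ 2)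
  ht : (t' - α) * x' = δ * (δ - α)
  hy : y' = w * (x' ^ 2 - 1) * (t' + 1)

/-- the two formulas of `α` agree on the surface -/
theorem alpha_of_reg {x t w δ α : F} (hf : w ^ 2 * (x ^ 2 - 1) * (t + 1) = x * t * (t - 1))
    (hδ : δ * (1 - w) = w)
    (hα : α * (1 - t - 2 * w) = - w * (2 * t + w * (1 + t) * (x + δ)))
    (hr : 1 - t - 2 * w ≠ 0) : α * (x - δ) = x * t - δ ^ 2 := by
  apply mul_left_cancel₀ hr
  linear_combination (x - δ) * hα - hf + (δ * (1 - t - w * (1 + t)) + w * (1 + t)) * hδ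

/-- conversely the two formulas of `α` give the equation of the surface -/
theorem fibre_of_alpha {x t w δ α : F} (hδ : δ * (1 - w) = w)
    (hα : α * (1 - t - 2 * w) = - w * (2 * t + w * (1 + t) * (x + δ)))
    (hα' : α * (x - δ) = x * t - δ ^ 2) :
    w ^ 2 * (x ^ 2 - 1) * (t + 1) = x * t * (t - 1) := by
  linear_combination (x - δ) * hα - (1 - t - 2 * w) * hα'
    + (δ * (1 - t - w * (1 + t)) + w * (1 + t)) * hδ

/-- the quadratic equation of the double plane -/
def qj (w δ α x : F) : F :=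
  w ^ 2 * (α + 1) * x ^ 2 + (α * (1 - α) + w * δ ^ 2) * x + (δ - α) * (δ * (δ - α) + w ^ 2)

/-- `x` times the regular formula of `α` is the quadratic equation -/
theorem qj_eq {x t w δ α : F} (hδ : δ * (1 - w) = w) (hα' : α * (x - δ) = x * t - δ ^ 2) :
    qj w δ α x = x * (α * (1 - t - 2 * w) + w * (2 * t + w * (1 + t) * (x + δ))) := by
  unfold qj
  linear_combination (2 * w - α + w ^ 2 * (x + δ)) * hα'
    + ((δ - α) * (δ - w + w * δ) + x * w * δ) * hδ

/-- the involution relation is symmetric and its image lies on the surface -/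
theorem JReg.symm {x t y w δ α x' t' y' : F} (h : JReg x t y w δ α x' t' y')
    (hX : OnX x t y) (hy0 : y ≠ 0) (hr : 1 - t - 2 * w ≠ 0) (hx0 : x' ≠ 0) :
    JReg x' t' y' w δ α x t y ∧ OnX x' t' y' := by
  have hX' := hX
  unfold OnX at hX'
  have h12 : (x ^ 2 - 1) * (t + 1) ≠ 0 := by
    intro h0
    apply hy0
    rw [← h.hw, h0, mul_zero]
  have h1 : x ^ 2 - 1 ≠ 0 := left_ne_zero_of_mul h12
  have h2 : t + 1 ≠ 0 := right_ne_zero_of_mul h12
  have hx : x ≠ 0 := by
    rintro rfl
    apply hy0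
    have : y ^ 2 = 0 := by rw [hX']; ring
    exact pow_eq_zero_iff (two_ne_zero) |>.1 this
  have hf := fibre_of_onX hX h.hw h1 h2
  have ha := alpha_of_reg hf h.hδ h.hα hr
  have hq : qj w δ α x = 0 := by
    rw [qj_eq h.hδ ha]
    linear_combination x * h.hα
  have hsum : w ^ 2 * (α + 1) * x' = - (w ^ 2 * (α + 1) * x + (α * (1 - α) + w * δ ^ 2)) := by
    apply mul_left_cancel₀ hx
    unfold qj at hq
    linear_combination h.hx + hq
  have hq' : qj w δ α x' = 0 := by
    unfold qj
    linear_combination x' * hsum - h.hx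
  have ha' : α * (x' - δ) = x' * t' - δ ^ 2 := by linear_combination (-1) * h.ht
  have hα' : α * (1 - t' - 2 * w) = - w * (2 * t' + w * (1 + t') * (x' + δ)) := by
    rw [qj_eq h.hδ ha'] at hq'
    have := (mul_eq_zero.1 hq').resolve_left hx0
    linear_combination this
  refine ⟨⟨?_, h.hδ, hα', ?_, ?_, ?_⟩, ?_⟩
  · rw [h.hy]; ring
  · linear_combination h.hx
  · linear_combination (-1) * ha
  · rw [← h.hw]; ring
  · rw [h.hy]
    exact onX_of_fibre (fibre_of_alpha h.hδ hα' ha')

end Pool.Agent.Helper90_WAP
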