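import Pool.Agent.Helper90_WAP.JD
import Pool.Agent.Helper90_WAP.Reg

/-!
For fixed `t` every bad condition of the involution `j` is a nonzero polynomial in `x`.
With `M = (x ^ 2 - 1) * (t + 1)`, `N = x * t * (t - 1)` one has `w ^ 2 * M = N` on the surface; a
bad condition gives a relation `A = B * w`, hence `A ^ 2 = B ^ 2 * w ^ 2`; all polynomials are
nonzero at `x = 1`, where `M = 0`.
-/

namespace Pool.Agent.WAP.H90

open Pool.Agent.Helper90_WAP (OnX JRel onX_image fibre_image fibre_of_onX onX_of_fibre qj qj_eq)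

section field
variable {F : Type} [Field F]

theorem bad1 {w M N : F} (hW : w ^ 2 * M = N) (h : w = 1) : M - N = 0 := by
  rw [← hW, h]; ring

theorem bad2 {x w M N : F} (hW : w ^ 2 * M = N) (h : x * (1 - w) = w) :
    N * (1 + x) ^ 2 - x ^ 2 * M = 0 := by
  rw [← hW]
  linear_combination (- M * (w * (1 + x) + x)) * h

theorem bad3 {x t w δ M N : F} (hW : w ^ 2 * M = N) (hδ : δ * (1 - w) = w)
    (h : -1 * (x - δ) = x * t - δ ^ 2) :
    N * M * (1 + 2 * x * (1 + t)) ^ 2 - x ^ 2 * (1 + t) ^ 2 * (M + N) ^ 2 = 0 := by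
  have e : w * (1 + 2 * x * (1 + t)) = x * (1 + t) * (1 + w ^ 2) := by
    linear_combination (1 - w) ^ 2 * h - (1 + δ * (1 - w)) * hδ
  rw [← hW]
  linear_combination (M ^ 2 * (w * (1 + 2 * x * (1 + t)) + x * (1 + t) * (1 + w ^ 2))) * e

theorem bad4 {t w M N : F} (hW : w ^ 2 * M = N) (h : t * (1 - w) = w) :
    N * (1 + t) ^ 2 - t ^ 2 * M = 0 := by
  rw [← hW]
  linear_combination (- M * (w * (1 + t) + t)) * h

theorem bad5 {x t w δ α M N : F} (hW : w ^ 2 * M = N) (hw : w ≠ 0) (hδ : δ * (1 - w) = w)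
    (hα : α * (x - δ) = x * t - δ ^ 2) (h : δ * (δ - α) + w ^ 2 = 0) :
    N * (x * (2 + t) * M + N * (x + 1)) ^ 2 - M * (x * t * M + (2 * x + 1) * N) ^ 2 = 0 := by
  have k : x * (δ * (1 - w)) ^ 2 - x * t * (δ * (1 - w)) * (1 - w) + w ^ 2 * x * (1 - w) ^ 2
      - w ^ 2 * (δ * (1 - w)) * (1 - w) = 0 := by
    linear_combination (1 - w) ^ 2 * ((x - δ) * h + δ * hα)
  rw [hδ] at k
  have e : w * (x * (2 + t) + w ^ 2 * (x + 1)) = x * t + (2 * x + 1) * w ^ 2 := by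
    apply mul_left_cancel₀ hw
    linear_combination k
  rw [← hW]
  linear_combination (M ^ 3 * (w * (x * (2 + t) + w ^ 2 * (x + 1)) + x * t + (2 * x + 1) * w ^ 2)) * e

theorem bad6 {x t w δ α M N : F} (hW : w ^ 2 * M = N) (hδ : δ * (1 - w) = w)
    (hα : α * (x - δ) = x * t - δ ^ 2) (h : α * (1 - δ - 2 * w) + 2 * δ ^ 2 = 0) :
    ((x * t * (M + N) - N) * (M + 2 * N) + 8 * x * t * N * M + 2 * x * N * M) ^ 2
      - N * M * (4 * (x * t * (M + N) - N) + 2 * x * t * (M + 2 * N) + 2 * N * (x + 1)) ^ 2 = 0 := by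
  have k : (x * t * (1 - w) ^ 2 - (δ * (1 - w)) ^ 2) * ((1 - w) - δ * (1 - w) - 2 * w * (1 - w))
      + 2 * (δ * (1 - w)) ^ 2 * (x * (1 - w) - δ * (1 - w)) = 0 := by
    linear_combination (1 - w) ^ 3 * ((x - δ) * h - (1 - δ - 2 * w) * hα)
  rw [hδ] at k
  have e : (x * t * (1 + w ^ 2) - w ^ 2) * (1 + 2 * w ^ 2) + 8 * x * t * w ^ 2 + 2 * x * w ^ 2 =
      w * (4 * (x * t * (1 + w ^ 2) - w ^ 2) + 2 * x * t * (1 + 2 * w ^ 2)
        + 2 * w ^ 2 * (x + 1)) := by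
    linear_combination k
  rw [← hW]
  linear_combination (M ^ 4 * ((x * t * (1 + w ^ 2) - w ^ 2) * (1 + 2 * w ^ 2) + 8 * x * t * w ^ 2
    + 2 * x * w ^ 2 + w * (4 * (x * t * (1 + w ^ 2) - w ^ 2) + 2 * x * t * (1 + 2 * w ^ 2)
        + 2 * w ^ 2 * (x + 1)))) * e

theorem bad7a {x t w δ α M N : F} (hW : w ^ 2 * M = N) (hδ : δ * (1 - w) = w)
    (hα : α * (x - δ) = x * t - δ ^ 2) (h : α + δ * (δ - α) = 0) :
    (x * t * (M + 2 * N) + N * (x - 1)) ^ 2 - 9 * x ^ 2 * t ^ 2 * (N * M) = 0 := by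
  have k : x * t * (1 - w) ^ 2 - (δ * (1 - w)) ^ 2 + (δ * (1 - w)) ^ 2 * x
      - x * t * (δ * (1 - w)) * (1 - w) = 0 := by
    linear_combination (1 - w) ^ 2 * ((x - δ) * h + (δ - 1) * hα)
  rw [hδ] at k
  have e : x * t * (1 + 2 * w ^ 2) + w ^ 2 * (x - 1) = 3 * x * t * w := by
    linear_combination k
  rw [← hW]
  linear_combination (M ^ 2 * (x * t * (1 + 2 * w ^ 2) + w ^ 2 * (x - 1) + 3 * x * t * w)) * e

theorem bad7b {x t w δ α M N : F} (hW : w ^ 2 * M = N) (hδ : δ * (1 - w) = w)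
    (hα : α * (x - δ) = x * t - δ ^ 2) (h : α - 1 + δ * (δ - α) = 0) :
    4 * N - M = 0 ∨ N * (x * t - 1) ^ 2 - x ^ 2 * (t - 1) ^ 2 * M = 0 := by
  have k : (1 - δ) * (x * (t - 1) - δ * (x - 1)) = 0 := by
    linear_combination (x - δ) * h + (δ - 1) * hα
  rcases mul_eq_zero.1 k with k1 | k1
  · left
    have d1 : δ = 1 := by linear_combination (-1) * k1
    rw [d1] at hδ
    rw [← hW]
    linear_combination (- M * (2 * w + 1)) * hδ
  · right
    have e : x * (t - 1) = w * (x * t - 1) := by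
      linear_combination (1 - w) * k1 + (x - 1) * hδ
    rw [← hW]
    linear_combination (- M * (x * (t - 1) + w * (x * t - 1))) * e

theorem bad7c {x t w δ α M N : F} (hW : w ^ 2 * M = N) (hδ : δ * (1 - w) = w)
    (hα : α * (x - δ) = x * t - δ ^ 2) (h : δ * (δ - α) - α = 0) :
    (x * t * M - N * (1 + x)) ^ 2 - x ^ 2 * t ^ 2 * (N * M) = 0 := by
  have k : (δ * (1 - w)) ^ 2 * x - x * t * (δ * (1 - w)) * (1 - w) - x * t * (1 - w) ^ 2
      + (δ * (1 - w)) ^ 2 = 0 := by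
    linear_combination (1 - w) ^ 2 * ((x - δ) * h + (δ + 1) * hα)
  rw [hδ] at k
  have e : x * t - w ^ 2 * (1 + x) = x * t * w := by
    linear_combination (-1) * k
  rw [← hW]
  linear_combination (M ^ 2 * (x * t - w ^ 2 * (1 + x) + x * t * w)) * e

theorem bad7d {x t w δ α M N : F} (hW : w ^ 2 * M = N) (hδ : δ * (1 - w) = w)
    (hα : α * (x - δ) = x * t - δ ^ 2) (h : δ * (δ - α) + 1 - α = 0) :
    (x * (t - 1) * M - 2 * N * (1 + x)) ^ 2 - N * M * (1 + 2 * x - x * t) ^ 2 = 0 := by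
  have k : (δ * (1 - w)) ^ 2 * x - x * t * (δ * (1 - w)) * (1 - w) + x * (1 - w) ^ 2
      - (δ * (1 - w)) * (1 - w) - x * t * (1 - w) ^ 2 + (δ * (1 - w)) ^ 2 = 0 := by
    linear_combination (1 - w) ^ 2 * ((x - δ) * h + (δ + 1) * hα)
  rw [hδ] at k
  have e : x * (t - 1) - 2 * w ^ 2 * (1 + x) = - w * (1 + 2 * x - x * t) := by
    linear_combination (-1) * k
  rw [← hW]
  linear_combination (M ^ 2 * (x * (t - 1) - 2 * w ^ 2 * (1 + x) - w * (1 + 2 * x - x * t))) * e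

/-- the quadratic at the two special values and at `δ` -/
theorem qj_delta {w δ α : F} (hδ : δ * (1 - w) = w) :
    qj w δ α δ = δ * (α * (1 - δ - 2 * w) + 2 * δ ^ 2) := by
  unfold qj
  linear_combination (- α * (δ - w + w * δ) - δ * (δ + w)) * hδ

theorem qj_one {w δ α : F} (hδ : δ * (1 - w) = w) :
    (α + δ * (δ - α)) * (α - 1 + δ * (δ - α)) = - (1 - δ) * qj w δ α 1 := by
  unfold qj
  linear_combination (w * δ + δ ^ 2 - δ - w) * hδ

theorem qj_neg_one {w δ α : F} (hδ : δ * (1 - w) = w) :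
    (δ * (δ - α) - α) * (δ * (δ - α) + 1 - α) = (1 + δ) * qj w δ α (-1) := by
  unfold qj
  linear_combination (w * δ - δ ^ 2 + δ + w) * hδ

/-- both roots -/
theorem qj_zero {x t w δ α : F} (hf : w ^ 2 * (x ^ 2 - 1) * (t + 1) = x * t * (t - 1))
    (hδ : δ * (1 - w) = w) (hα : α * (x - δ) = x * t - δ ^ 2) (hx : x ≠ δ) :
    qj w δ α x = 0 := by
  rw [qj_eq hδ hα]
  have : α * (1 - t - 2 * w) + w * (2 * t + w * (1 + t) * (x + δ)) = 0 := by
    apply mul_left_cancel₀ (sub_ne_zero.2 hx)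
    linear_combination (1 - t - 2 * w) * hα + hf
      - (δ * (1 - t - w * (1 + t)) + w * (1 + t)) * hδ
  rw [this, mul_zero]

theorem qj_zero' {x w δ α x' : F} (h : qj w δ α x = 0) (hx : x ≠ 0)
    (hx' : x' * (w ^ 2 * (α + 1) * x) = (δ - α) * (δ * (δ - α) + w ^ 2)) :
    qj w δ α x' = 0 := by
  have hsum : w ^ 2 * (α + 1) * x' = - (w ^ 2 * (α + 1) * x + (α * (1 - α) + w * δ ^ 2)) := by
    apply mul_left_cancel₀ hx
    unfold qj at h
    linear_combination hx' + h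
  unfold qj
  linear_combination x' * hsum - hx'

end field

end Pool.Agent.WAP.H90
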