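import Pool.Agent.Helper90_WAP.JCon

/-!
JNE, JCO: the involution `J` near the exceptional curve.  In the coordinates `(x, t, m)` at the
origin node everything is continuous: `x' = m * xq` with `xq → 2`.
-/

namespace Pool.Agent.WAP.H90

open Filter Topology

section alg
variable {F : Type} [Field F]

def o1 (p : F × F × F) : F := (p.2.1 - 1) / (p.1 ^ 2 - 1)
def ww (p : F × F × F) : F := p.1 * (p.2.2 * o1 p)
def ee (p : F × F × F) : F := 1 / (1 - ww p)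
def d2 (p : F × F × F) : F := o1 p * ee p
def th2 (p : F × F × F) : F := o1 p * (p.2.1 + 1)
def a2 (p : F × F × F) : F := (th2 p - d2 p ^ 2) / (1 - p.2.2 * d2 p)
def k2 (p : F × F × F) : F := d2 p - p.2.2 * a2 p
def xq (p : F × F × F) : F :=
  k2 p * (d2 p * k2 p + o1 p ^ 2) / (o1 p ^ 2 * (p.1 * p.2.2 ^ 2 * a2 p + 1))
def tq (p : F × F × F) : F := p.1 * p.2.2 ^ 2 * a2 p + p.1 ^ 2 * p.2.2 * d2 p * k2 p / xq p
def mq (p : F × F × F) : F :=
  p.1 * o1 p * ((p.2.2 * xq p) ^ 2 - 1) * (tq p + 1) / (xq p * (tq p ^ 2 - 1))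

/-- the coordinates `(x, t, m)` of a point -/
noncomputable def pc (q : F × F × F) : F × F × F := (q.1, q.2.1, mz q)

theorem mz_ne {q : F × F × F} (hU : OnU q) : mz q ≠ 0 := by
  have f := onU_facts hU
  unfold mz
  exact div_ne_zero hU.2 (mul_ne_zero f.1 f.2.2.2.2.2.1)

theorem link_w {q : F × F × F} (hU : OnU q) : jw q = ww (pc q) := by
  obtain ⟨x, t, y⟩ := q
  obtain ⟨hx, hx1, ht, ht1, ht2, ht3, _, _⟩ := onU_facts hU
  simp only at hx hx1 ht ht1 ht2 ht3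
  simp only [jw, ww, o1, pc, mz]
  have e : t ^ 2 - 1 = (t - 1) * (t + 1) := by ring
  rw [e]
  field_simp

/-- `t = x * m ^ 2 * th2` -/
theorem link_t {q : F × F × F} (hU : OnU q) :
    q.2.1 = q.1 * (mz q) ^ 2 * th2 (pc q) := by
  obtain ⟨x, t, y⟩ := q
  obtain ⟨hx, hx1, ht, ht1, ht2, ht3, _, _⟩ := onU_facts hU
  have h1 := hU.1
  simp only [cub] at hx hx1 ht ht1 ht2 ht3 h1
  simp only [th2, o1, pc, mz]
  have e : t ^ 2 - 1 = (t - 1) * (t + 1) := by ring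
  rw [e, div_pow, h1]
  have e2 : (x ^ 3 - x) = x * (x ^ 2 - 1) := by ring
  have e3 : (t ^ 3 - t) = t * ((t - 1) * (t + 1)) := by ring
  rw [e2, e3]
  field_simp

theorem link_d {q : F × F × F} (hU : OnU q) : jd q = q.1 * (mz q) * d2 (pc q) := by
  unfold jd
  rw [link_w hU]
  simp only [d2, ee, ww, pc]
  ring

theorem link_a {q : F × F × F} (hU : OnU q) :
    ja q = q.1 * (mz q) ^ 2 * a2 (pc q) := by
  have hx := (onU_facts hU).1
  have ht := link_t hU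
  unfold ja
  rw [link_d hU]
  have e1 : q.1 * q.2.1 - (q.1 * mz q * d2 (pc q)) ^ 2 =
      q.1 * (q.1 * (mz q) ^ 2 * (th2 (pc q) - d2 (pc q) ^ 2)) := by
    linear_combination q.1 * ht
  have e2 : q.1 - q.1 * mz q * d2 (pc q) = q.1 * (1 - mz q * d2 (pc q)) := by ring
  rw [e1, e2, mul_div_mul_left _ _ hx]
  simp only [a2, pc]
  ring

theorem link_da {q : F × F × F} (hU : OnU q) :
    jd q - ja q = q.1 * mz q * k2 (pc q) := by
  rw [link_d hU, link_a hU]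
  simp only [k2, pc]
  ring

theorem link_x {q : F × F × F} (hU : OnU q) : jx q = mz q * xq (pc q) := by
  have hx := (onU_facts hU).1
  have hm := mz_ne hU
  unfold jx
  rw [link_da hU, link_d hU, link_a hU, link_w hU]
  have e1 : q.1 * mz q * k2 (pc q) *
      (q.1 * mz q * d2 (pc q) * (q.1 * mz q * k2 (pc q)) + ww (pc q) ^ 2) =
      (q.1 ^ 3 * mz q ^ 2) * (mz q * (k2 (pc q) * (d2 (pc q) * k2 (pc q) + o1 (pc q) ^ 2))) := by
    simp only [ww]
    show _ * (_ + (q.1 * (mz q * o1 (pc q))) ^ 2) = _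
    ring
  have e2 : ww (pc q) ^ 2 * (q.1 * mz q ^ 2 * a2 (pc q) + 1) * q.1 =
      (q.1 ^ 3 * mz q ^ 2) * (o1 (pc q) ^ 2 * (q.1 * mz q ^ 2 * a2 (pc q) + 1)) := by
    simp only [ww]
    show (q.1 * (mz q * o1 (pc q))) ^ 2 * _ * _ = _
    ring
  rw [e1, e2, mul_div_mul_left _ _ (mul_ne_zero (pow_ne_zero 3 hx) (pow_ne_zero 2 hm)),
    mul_div_assoc]
  rfl

theorem link_tt {q : F × F × F} (hU : OnU q) : jt q = tq (pc q) := by
  have hx := (onU_facts hU).1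
  have hm := mz_ne hU
  unfold jt
  rw [link_da hU, link_x hU, link_d hU, link_a hU]
  have e1 : q.1 * mz q * d2 (pc q) * (q.1 * mz q * k2 (pc q)) =
      mz q * (q.1 ^ 2 * mz q * d2 (pc q) * k2 (pc q)) := by ring
  rw [e1, mul_div_mul_left _ _ hm]
  rfl

theorem link_m {q : F × F × F} (hU : OnU q) : mz (jf q) = mq (pc q) := by
  have hx := (onU_facts hU).1
  have hm := mz_ne hU
  show jw q * (jx q ^ 2 - 1) * (jt q + 1) / (jx q * (jt q ^ 2 - 1)) = _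
  rw [link_w hU, link_x hU, link_tt hU]
  have e1 : ww (pc q) * ((mz q * xq (pc q)) ^ 2 - 1) * (tq (pc q) + 1) =
      mz q * (q.1 * o1 (pc q) * ((mz q * xq (pc q)) ^ 2 - 1) * (tq (pc q) + 1)) := by
    simp only [ww]
    show q.1 * (mz q * o1 (pc q)) * _ * _ = _
    ring
  rw [e1, mul_assoc (mz q) (xq (pc q)), mul_div_mul_left _ _ hm]
  rfl

theorem mz_t00f {q : F × F × F} (hU : OnU q) : mz (t00f q) = mz q := by
  obtain ⟨x, t, y⟩ := q
  obtain ⟨hx, hx1, ht, ht1, ht2, ht3, _, _⟩ := onU_facts hU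
  simp only at hx hx1 ht ht1 ht2 ht3
  have ht4 : 1 - t ^ 2 ≠ 0 := by
    intro h; apply ht3; linear_combination (-1) * h
  simp only [mz, t00f]
  have e : (-1 / x) * ((-1 / t) ^ 2 - 1) = - (1 - t ^ 2) / (x * t ^ 2) := by
    field_simp
  rw [e]
  have e2 : t ^ 2 - 1 = - (1 - t ^ 2) := by ring
  rw [e2]
  field_simp

end alg

section top
variable {F : Type} [NormedField F]

theorem cont_all {m1 : F} (h2 : (2 : F) ≠ 0) (hm : m1 ≠ 1) :
    Tendsto (o1 (F := F)) (𝓝 (0, 0, m1)) (𝓝 1) ∧ Tendsto (ww (F := F)) (𝓝 (0, 0, m1)) (𝓝 0) ∧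
    Tendsto (d2 (F := F)) (𝓝 (0, 0, m1)) (𝓝 1) ∧ Tendsto (a2 (F := F)) (𝓝 (0, 0, m1)) (𝓝 0) ∧
    Tendsto (k2 (F := F)) (𝓝 (0, 0, m1)) (𝓝 1) ∧ Tendsto (xq (F := F)) (𝓝 (0, 0, m1)) (𝓝 2) ∧
    Tendsto (tq (F := F)) (𝓝 (0, 0, m1)) (𝓝 0) ∧ Tendsto (mq (F := F)) (𝓝 (0, 0, m1)) (𝓝 0) ∧
    Tendsto (fun p : F × F × F => p.1) (𝓝 (0, 0, m1)) (𝓝 0) ∧
    Tendsto (fun p : F × F × F => p.2.1) (𝓝 (0, 0, m1)) (𝓝 0) ∧
    Tendsto (fun p : F × F × F => p.2.2) (𝓝 (0, 0, m1)) (𝓝 m1) := by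
  have c1 : Tendsto (fun p : F × F × F => p.1) (𝓝 (0, 0, m1)) (𝓝 0) :=
    (continuous_fst.tendsto (0, 0, m1))
  have c2 : Tendsto (fun p : F × F × F => p.2.1) (𝓝 (0, 0, m1)) (𝓝 0) :=
    ((continuous_fst.comp continuous_snd).tendsto (0, 0, m1))
  have c3 : Tendsto (fun p : F × F × F => p.2.2) (𝓝 (0, 0, m1)) (𝓝 m1) :=
    ((continuous_snd.comp continuous_snd).tendsto (0, 0, m1))
  have co : Tendsto (o1 (F := F)) (𝓝 (0, 0, m1)) (𝓝 1) := by
    have h := (c2.sub_const 1).div ((c1.pow 2).sub_const 1) (by simp)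
    have e : (0 - 1 : F) / (0 ^ 2 - 1) = 1 := by norm_num
    rw [e] at h
    exact h
  have cw : Tendsto (ww (F := F)) (𝓝 (0, 0, m1)) (𝓝 0) := by
    have h := c1.mul (c3.mul co)
    rw [zero_mul] at h
    exact h
  have ce : Tendsto (ee (F := F)) (𝓝 (0, 0, m1)) (𝓝 1) := by
    have h := (tendsto_const_nhds (x := (1 : F))).div (cw.const_sub 1) (by simp)
    rw [sub_zero, div_one] at h
    exact h
  have cd : Tendsto (d2 (F := F)) (𝓝 (0, 0, m1)) (𝓝 1) := by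
    have h := co.mul ce
    rw [one_mul] at h
    exact h
  have cth : Tendsto (th2 (F := F)) (𝓝 (0, 0, m1)) (𝓝 1) := by
    have h := co.mul (c2.add_const 1)
    rw [zero_add, mul_one] at h
    exact h
  have ca : Tendsto (a2 (F := F)) (𝓝 (0, 0, m1)) (𝓝 0) := by
    have h := (cth.sub (cd.pow 2)).div ((c3.mul cd).const_sub 1)
      (by rw [mul_one]; exact sub_ne_zero.2 hm.symm)
    rw [one_pow, sub_self, zero_div] at h
    exact h
  have ck : Tendsto (k2 (F := F)) (𝓝 (0, 0, m1)) (𝓝 1) := by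
    have h := cd.sub (c3.mul ca)
    rw [mul_zero, sub_zero] at h
    exact h
  have cA : Tendsto (fun p : F × F × F => p.1 * p.2.2 ^ 2 * a2 p) (𝓝 (0, 0, m1)) (𝓝 0) := by
    have h := (c1.mul (c3.pow 2)).mul ca
    rw [mul_zero] at h
    exact h
  have cx : Tendsto (xq (F := F)) (𝓝 (0, 0, m1)) (𝓝 2) := by
    have h := (ck.mul ((cd.mul ck).add (co.pow 2))).div ((co.pow 2).mul (cA.add_const 1))
      (by simp)
    have e : (1 * (1 * 1 + 1 ^ 2) : F) / (1 ^ 2 * (0 + 1)) = 2 := by norm_num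
    rw [e] at h
    exact h
  have ct : Tendsto (tq (F := F)) (𝓝 (0, 0, m1)) (𝓝 0) := by
    have h := cA.add (((((c1.pow 2).mul c3).mul cd).mul ck).div cx h2)
    have e : (0 + 0 ^ 2 * m1 * 1 * 1 / 2 : F) = 0 := by simp
    rw [e] at h
    exact h
  have cm : Tendsto (mq (F := F)) (𝓝 (0, 0, m1)) (𝓝 0) := by
    have h := (((c1.mul co).mul (((c3.mul cx).pow 2).sub_const 1)).mul (ct.add_const 1)).div
      (cx.mul ((ct.pow 2).sub_const 1)) (by simpa using h2)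
    have e : (0 * 1 * ((m1 * 2) ^ 2 - 1) * (0 + 1) / (2 * (0 ^ 2 - 1)) : F) = 0 := by simp
    rw [e] at h
    exact h
  exact ⟨co, cw, cd, ca, ck, cx, ct, cm, c1, c2, c3⟩

theorem near_core {m1 : F} {P : F × F × F → Prop} (hP : ∀ᶠ p in 𝓝 ((0 : F), (0 : F), m1), P p) :
    ∃ r : ℝ, 0 < r ∧ ∀ z : F × F × F, NearE m1 r z → OnU (t00f z) ∧ P (pc (t00f z)) := by
  obtain ⟨r, hr, hball⟩ := Metric.mem_nhds_iff.1 hP
  refine ⟨r, hr, fun z hz => ?_⟩
  obtain ⟨hU, h1, h2, h3⟩ := hz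
  have hU' := onU_t00f hU
  refine ⟨hU', hball ?_⟩
  have g : ∀ a : F, 1 / r < ‖a‖ → ‖-1 / a‖ < r := by
    intro a ha
    have ha0 : 0 < ‖a‖ := lt_trans (div_pos one_pos hr) ha
    rw [norm_div, norm_neg, norm_one, div_lt_iff₀ ha0]
    rw [div_lt_iff₀ hr] at ha
    linarith [mul_comm r ‖a‖]
  rw [Metric.mem_ball, Prod.dist_eq, Prod.dist_eq]
  refine max_lt ?_ (max_lt ?_ ?_)
  · rw [dist_zero_right]
    exact g _ h1
  · rw [dist_zero_right]
    exact g _ h2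
  · show dist (mz (t00f z)) m1 < r
    rw [mz_t00f hU, dist_eq_norm]
    exact h3

/-- the list of conditions which hold near the exceptional curve -/
theorem cond_near {m1 : F} (h2 : (2 : F) ≠ 0) (hm : m1 ≠ 1) (hm4 : (m1 * 2) ^ 2 ≠ 1) :
    ∀ᶠ p in 𝓝 ((0 : F), (0 : F), m1), ∀ q : F × F × F, OnU q → pc q = p → jD q := by
  obtain ⟨co, cw, cd, ca, ck, cx, ct, cm, c1, c2, c3⟩ := cont_all h2 hm
  have k1 := cw.eventually_ne (zero_ne_one (α := F))
  have k2' := ((c3.mul cd).const_sub 1).eventually_ne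
    (show (1 - m1 * 1 : F) ≠ 0 by rw [mul_one]; exact sub_ne_zero.2 hm.symm)
  have k3 := (((c1.mul (c3.pow 2)).mul ca)).eventually_ne
    (show (0 * m1 ^ 2 * 0 : F) ≠ -1 by
      rw [mul_zero]
      intro h
      exact one_ne_zero (α := F) (by linear_combination h))
  have k4 := ck.eventually_ne (one_ne_zero (α := F))
  have k5 := ((cd.mul ck).add (co.pow 2)).eventually_ne
    (show (1 * 1 + 1 ^ 2 : F) ≠ 0 by
      have : (1 * 1 + 1 ^ 2 : F) = 2 := by norm_num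
      rw [this]; exact h2)
  have k6 := (cx.sub (c1.mul cd)).eventually_ne
    (show (2 - 0 * 1 : F) ≠ 0 by rw [zero_mul, sub_zero]; exact h2)
  have k7 := ((c3.mul cx).pow 2).eventually_ne hm4
  filter_upwards [k1, k2', k3, k4, k5, k6, k7] with p h1 h2' h3 h4 h5 h6 h7 q hU hq
  subst hq
  have hx := (onU_facts hU).1
  have hmz := mz_ne hU
  refine ⟨hU, ?_, ?_, ?_, ?_, ?_, ?_, ?_⟩
  · rw [link_w hU]; exact h1
  · rw [link_d hU]
    intro h
    apply h2'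
    apply mul_left_cancel₀ hx
    show q.1 * (1 - mz q * d2 (pc q)) = q.1 * 0
    linear_combination h
  · rw [link_a hU]; exact h3
  · rw [← sub_ne_zero, link_da hU]
    exact mul_ne_zero (mul_ne_zero hx hmz) h4
  · rw [link_da hU, link_d hU, link_w hU]
    intro h
    apply h5
    apply mul_left_cancel₀ (mul_ne_zero (pow_ne_zero 2 hx) (pow_ne_zero 2 hmz))
    have e : ww (pc q) = q.1 * (mz q * o1 (pc q)) := rfl
    rw [e] at h
    linear_combination h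
  · rw [link_x hU, link_d hU]
    intro h
    apply h6
    apply mul_left_cancel₀ hmz
    show mz q * (xq (pc q) - q.1 * d2 (pc q)) = mz q * 0
    linear_combination h
  · rw [link_x hU]; exact h7

theorem norm_inv_gt {ρ : ℝ} (hρ : 0 < ρ) {a : F} (ha : a ≠ 0) (h : ‖a‖ < ρ) :
    1 / ρ < ‖-1 / a‖ := by
  have ha0 : 0 < ‖a‖ := norm_pos_iff.2 ha
  rw [norm_div, norm_neg, norm_one]
  exact one_div_lt_one_div_of_lt ha0 h

variable [Algebra GaussianInt F]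

theorem jne_gen (h2 : (2 : F) ≠ 0) (x1 : F) (ρ : ℝ) (hρ : 0 < ρ) (hx0 : x1 ≠ 0) (hx1 : x1 ≠ 1)
    (hxm : x1 ≠ -1) (hx2 : 2 * x1 ≠ -1) :
    ∃ r : ℝ, 0 < r ∧ ∀ z : F × F × F, NearE (-1 / (2 * x1)) r z →
      ∃ z', Step .jj z z' ∧ NearG x1 ρ z' := by
  have h2x : 2 * x1 ≠ 0 := mul_ne_zero h2 hx0
  have hm : -1 / (2 * x1) ≠ 1 := by
    intro h
    rw [div_eq_iff h2x] at h
    apply hx2
    linear_combination (-1) * h
  have hm2 : -1 / (2 * x1) * 2 = -1 / x1 := by field_simp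
  have hm4 : (-1 / (2 * x1) * 2) ^ 2 ≠ 1 := by
    rw [hm2]
    intro h
    rw [div_pow, div_eq_iff (pow_ne_zero 2 hx0)] at h
    have : (x1 - 1) * (x1 + 1) = 0 := by linear_combination (-1) * h
    rcases mul_eq_zero.1 this with h3 | h3
    · exact hx1 (by linear_combination h3)
    · exact hxm (by linear_combination h3)
  obtain ⟨co, cw, cd, ca, ck, cx, ct, cm, c1, c2, c3⟩ := cont_all h2 hm
  have hmx : -1 / (2 * x1) * 2 ≠ 0 := by
    rw [hm2]; exact div_ne_zero (neg_ne_zero.2 one_ne_zero) hx0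
  have l1 := (tendsto_const_nhds (x := (-1 : F))).div (c3.mul cx) hmx
  have e1 : -1 / (-1 / (2 * x1) * 2) = x1 := by
    rw [hm2]; field_simp
  rw [e1] at l1
  have l2 := l1.eventually (Metric.ball_mem_nhds x1 hρ)
  have l3 := ct.eventually (Metric.ball_mem_nhds (0 : F) hρ)
  obtain ⟨r, hr, H⟩ := near_core ((cond_near h2 hm hm4).and (l2.and l3))
  refine ⟨r, hr, fun z hz => ?_⟩
  obtain ⟨hU', g1, g2, g3⟩ := H z hz
  have hJ : JD z := g1 _ hU' rfl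
  obtain ⟨k1, k2', k3⟩ := JD_JJf h2 hz.1 hJ
  have hUj := (jD_jf h2 hJ).1.1
  have fj := onU_facts hUj
  refine ⟨JJf z, ⟨hz.1, k3, hJ, rfl⟩, k3, ?_, ?_⟩
  · have e2 : (JJf z).1 = -1 / (mz (t00f z) * xq (pc (t00f z))) := by
      show -1 / jx (t00f z) = _
      rw [link_x hU']
    rw [e2, ← dist_eq_norm]
    exact g2
  · show 1 / ρ < ‖-1 / jt (t00f z)‖
    refine norm_inv_gt hρ fj.2.2.1 ?_
    rw [link_tt hU', ← dist_zero_right]
    exact g3

theorem jco_gen (h2 : (2 : F) ≠ 0) (ρ : ℝ) (hρ : 0 < ρ) :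
    ∃ r : ℝ, 0 < r ∧ ∀ z : F × F × F, NearE 0 r z →
      ∃ z', Step .jj z z' ∧ NearE 0 ρ z' := by
  have hm : (0 : F) ≠ 1 := zero_ne_one
  have hm4 : ((0 : F) * 2) ^ 2 ≠ 1 := by
    rw [zero_mul, zero_pow two_ne_zero]
    exact zero_ne_one
  obtain ⟨co, cw, cd, ca, ck, cx, ct, cm, c1, c2, c3⟩ := cont_all h2 hm
  have l1 := c3.mul cx
  rw [zero_mul] at l1
  have l2 := l1.eventually (Metric.ball_mem_nhds (0 : F) hρ)
  have l3 := ct.eventually (Metric.ball_mem_nhds (0 : F) hρ)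
  have l4 := cm.eventually (Metric.ball_mem_nhds (0 : F) hρ)
  obtain ⟨r, hr, H⟩ := near_core ((cond_near h2 hm hm4).and (l2.and (l3.and l4)))
  refine ⟨r, hr, fun z hz => ?_⟩
  obtain ⟨hU', g1, g2, g3, g4⟩ := H z hz
  have hJ : JD z := g1 _ hU' rfl
  obtain ⟨k1, k2', k3⟩ := JD_JJf h2 hz.1 hJ
  have hUj := (jD_jf h2 hJ).1.1
  have fj := onU_facts hUj
  refine ⟨JJf z, ⟨hz.1, k3, hJ, rfl⟩, k3, ?_, ?_, ?_⟩
  · show 1 / ρ < ‖-1 / jx (t00f z)‖
    refine norm_inv_gt hρ fj.1 ?_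
    rw [link_x hU', ← dist_zero_right]
    exact g2
  · show 1 / ρ < ‖-1 / jt (t00f z)‖
    refine norm_inv_gt hρ fj.2.2.1 ?_
    rw [link_tt hU', ← dist_zero_right]
    exact g3
  · show ‖mz (t00f (jf (t00f z))) - 0‖ < ρ
    rw [mz_t00f hUj, link_m hU', ← dist_eq_norm]
    exact g4

end top

end Pool.Agent.WAP.H90
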