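import Pool.Agent.Helper90_WAP.JLoc
import Pool.Agent.Helper90_WAP.JDen

/-! JNE -/

namespace Pool.Agent.WAP.H90

theorem jne : JneStmt := fun _ _ _ _ h _ x1 ρ h1 h2 h3 h4 h5 =>
  jne_gen (two_ne_of_isLoc h) x1 ρ h1 h2 h3 h4 h5

end Pool.Agent.WAP.H90
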