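import Pool.Agent.Helper90_WAP.JBad

/-!
The product of all bad polynomials of `j` for fixed `t`, and its finitely many roots.
-/

namespace Pool.Agent.WAP.H90

open Polynomial
open Pool.Agent.Helper90_WAP (OnX JRel onX_image fibre_image fibre_of_onX onX_of_fibre qj qj_eq)

variable {F : Type} [Field F]

noncomputable def MM (t : F) : F[X] := (X ^ 2 - 1) * C (t + 1)
noncomputable def NN (t : F) : F[X] := X * C (t * (t - 1))

noncomputable def P1 (t : F) : F[X] := MM t - NN t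
noncomputable def P2 (t : F) : F[X] := NN t * (1 + X) ^ 2 - X ^ 2 * MM t
noncomputable def P3 (t : F) : F[X] :=
  NN t * MM t * (1 + 2 * X * (1 + C t)) ^ 2 - X ^ 2 * (1 + C t) ^ 2 * (MM t + NN t) ^ 2
noncomputable def P4 (t : F) : F[X] := NN t * (1 + C t) ^ 2 - C t ^ 2 * MM t
noncomputable def P5 (t : F) : F[X] :=
  NN t * (X * (2 + C t) * MM t + NN t * (X + 1)) ^ 2
    - MM t * (X * C t * MM t + (2 * X + 1) * NN t) ^ 2
noncomputable def P6 (t : F) : F[X] :=
  ((X * C t * (MM t + NN t) - NN t) * (MM t + 2 * NN t) + 8 * X * C t * NN t * MM t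
      + 2 * X * NN t * MM t) ^ 2
    - NN t * MM t * (4 * (X * C t * (MM t + NN t) - NN t) + 2 * X * C t * (MM t + 2 * NN t)
      + 2 * NN t * (X + 1)) ^ 2
noncomputable def P7a (t : F) : F[X] :=
  (X * C t * (MM t + 2 * NN t) + NN t * (X - 1)) ^ 2 - 9 * X ^ 2 * C t ^ 2 * (NN t * MM t)
noncomputable def P7b (t : F) : F[X] := 4 * NN t - MM t
noncomputable def P7e (t : F) : F[X] := NN t * (X * C t - 1) ^ 2 - X ^ 2 * (C t - 1) ^ 2 * MM t
noncomputable def P7c (t : F) : F[X] :=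
  (X * C t * MM t - NN t * (1 + X)) ^ 2 - X ^ 2 * C t ^ 2 * (NN t * MM t)
noncomputable def P7d (t : F) : F[X] :=
  (X * (C t - 1) * MM t - 2 * NN t * (1 + X)) ^ 2 - NN t * MM t * (1 + 2 * X - X * C t) ^ 2

/-- the product -/
noncomputable def PJ (t : F) : F[X] :=
  P1 t * P2 t * P3 t * P4 t * P5 t * P6 t * P7a t * P7b t * P7e t * P7c t * P7d t

theorem eval_MM (t x : F) : (MM t).eval x = (x ^ 2 - 1) * (t + 1) := by simp [MM]
theorem eval_NN (t x : F) : (NN t).eval x = x * (t * (t - 1)) := by simp [NN]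

theorem PJ_ne (h2 : (2 : F) ≠ 0) {t : F} (h0 : t ≠ 0) (h1 : t - 1 ≠ 0) (hm : t + 1 ≠ 0) :
    PJ t ≠ 0 := by
  have e : (PJ t).eval 1 ≠ 0 := by
    have k4 : (4 : F) ≠ 0 := by
      have : (4 : F) = 2 * 2 := by norm_num
      rw [this]; exact mul_ne_zero h2 h2
    have kn : t * (t - 1) ≠ 0 := mul_ne_zero h0 h1
    have hm' : 1 + t ≠ 0 := by rw [add_comm]; exact hm
    have e1 : (P1 t).eval 1 ≠ 0 := by
      have : (P1 t).eval 1 = - (t * (t - 1)) := by simp [P1, eval_MM, eval_NN]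
      rw [this]; exact neg_ne_zero.2 kn
    have e2 : (P2 t).eval 1 ≠ 0 := by
      have : (P2 t).eval 1 = 4 * (t * (t - 1)) := by simp [P2, eval_MM, eval_NN]; ring
      rw [this]; exact mul_ne_zero k4 kn
    have e3 : (P3 t).eval 1 ≠ 0 := by
      have : (P3 t).eval 1 = - ((1 + t) ^ 2 * (t * (t - 1)) ^ 2) := by
        simp [P3, eval_MM, eval_NN]
      rw [this]; exact neg_ne_zero.2 (mul_ne_zero (pow_ne_zero 2 hm') (pow_ne_zero 2 kn))
    have e4 : (P4 t).eval 1 ≠ 0 := by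
      have : (P4 t).eval 1 = (t * (t - 1)) * (1 + t) ^ 2 := by simp [P4, eval_MM, eval_NN]
      rw [this]; exact mul_ne_zero kn (pow_ne_zero 2 hm')
    have e5 : (P5 t).eval 1 ≠ 0 := by
      have : (P5 t).eval 1 = 4 * (t * (t - 1)) ^ 3 := by simp [P5, eval_MM, eval_NN]; ring
      rw [this]; exact mul_ne_zero k4 (pow_ne_zero 3 kn)
    have e6 : (P6 t).eval 1 ≠ 0 := by
      have : (P6 t).eval 1 = 4 * ((t - 1) * (t * (t - 1)) ^ 2) ^ 2 := by
        simp [P6, eval_MM, eval_NN]; ring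
      rw [this]; exact mul_ne_zero k4 (pow_ne_zero 2 (mul_ne_zero h1 (pow_ne_zero 2 kn)))
    have e7a : (P7a t).eval 1 ≠ 0 := by
      have : (P7a t).eval 1 = 4 * (t * (t * (t - 1))) ^ 2 := by
        simp [P7a, eval_MM, eval_NN]; ring
      rw [this]; exact mul_ne_zero k4 (pow_ne_zero 2 (mul_ne_zero h0 kn))
    have e7b : (P7b t).eval 1 ≠ 0 := by
      have : (P7b t).eval 1 = 4 * (t * (t - 1)) := by simp [P7b, eval_MM, eval_NN]
      rw [this]; exact mul_ne_zero k4 kn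
    have e7e : (P7e t).eval 1 ≠ 0 := by
      have : (P7e t).eval 1 = t * (t - 1) * (t - 1) ^ 2 := by simp [P7e, eval_MM, eval_NN]
      rw [this]; exact mul_ne_zero kn (pow_ne_zero 2 h1)
    have e7c : (P7c t).eval 1 ≠ 0 := by
      have : (P7c t).eval 1 = 4 * (t * (t - 1)) ^ 2 := by simp [P7c, eval_MM, eval_NN]; ring
      rw [this]; exact mul_ne_zero k4 (pow_ne_zero 2 kn)
    have e7d : (P7d t).eval 1 ≠ 0 := by
      have : (P7d t).eval 1 = (4 * (t * (t - 1))) ^ 2 := by simp [P7d, eval_MM, eval_NN]; ring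
      rw [this]; exact pow_ne_zero 2 (mul_ne_zero k4 kn)
    unfold PJ
    simp only [eval_mul]
    exact mul_ne_zero (mul_ne_zero (mul_ne_zero (mul_ne_zero (mul_ne_zero (mul_ne_zero
      (mul_ne_zero (mul_ne_zero (mul_ne_zero (mul_ne_zero e1 e2) e3) e4) e5) e6) e7a) e7b) e7e) e7c)
      e7d
  intro h
  rw [h] at e
  simp at e

/-- outside the roots of `PJ t` the point is in the domain of `j` -/
theorem jD_of_PJ (h2 : (2 : F) ≠ 0) {z : F × F × F} (hU : OnU z)
    (h : (PJ z.2.1).eval z.1 ≠ 0) : jD z := by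
  obtain ⟨x, t, y⟩ := z
  obtain ⟨hx, hx1, ht, ht1, ht2, _, _, _⟩ := onU_facts hU
  simp only at h hx hx1 ht ht1 ht2
  unfold PJ at h
  simp only [eval_mul, mul_ne_zero_iff] at h
  obtain ⟨⟨⟨⟨⟨⟨⟨⟨⟨⟨g1, g2⟩, g3⟩, g4⟩, g5⟩, g6⟩, g7a⟩, g7b⟩, g7e⟩, g7c⟩, g7d⟩ := h
  simp only [P1, P2, P3, P4, P5, P6, P7a, P7b, P7e, P7c, P7d, eval_add, eval_sub, eval_mul,
    eval_pow, eval_X, eval_C, eval_one, eval_ofNat, eval_MM, eval_NN] at g1 g2 g3 g4 g5 g6 g7a g7b g7e g7c g7d
  have hw0 := jw_ne hU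
  have hwM : jw (x, t, y) * ((x ^ 2 - 1) * (t + 1)) = y := by
    unfold jw
    exact div_mul_cancel₀ _ (mul_ne_zero hx1 ht2)
  have hf : (jw (x, t, y)) ^ 2 * (x ^ 2 - 1) * (t + 1) = x * t * (t - 1) :=
    fibre_of_onX (onU_onX hU) hwM hx1 ht2
  have hW : (jw (x, t, y)) ^ 2 * ((x ^ 2 - 1) * (t + 1)) = x * (t * (t - 1)) := by
    linear_combination hf
  have w1 : jw (x, t, y) ≠ 1 := fun h => g1 (bad1 hW h)
  have hδ : jd (x, t, y) * (1 - jw (x, t, y)) = jw (x, t, y) := by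
    unfold jd
    exact div_mul_cancel₀ _ (sub_ne_zero.2 w1.symm)
  have xd : x ≠ jd (x, t, y) := by
    intro h
    apply g2
    refine bad2 hW ?_
    linear_combination hδ + (1 - jw (x, t, y)) * h
  have hα : ja (x, t, y) * (x - jd (x, t, y)) = x * t - jd (x, t, y) ^ 2 := by
    unfold ja
    exact div_mul_cancel₀ _ (sub_ne_zero.2 xd)
  have a1 : ja (x, t, y) ≠ -1 := by
    intro h
    rw [h] at hα
    exact g3 (bad3 hW hδ hα)
  have da : jd (x, t, y) ≠ ja (x, t, y) := by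
    intro h
    apply g4
    rw [← h] at hα
    have e : jd (x, t, y) = t := by
      apply mul_left_cancel₀ hx
      linear_combination hα
    rw [e] at hδ
    exact bad4 hW hδ
  have g : jd (x, t, y) * (jd (x, t, y) - ja (x, t, y)) + jw (x, t, y) ^ 2 ≠ 0 :=
    fun h => g5 (bad5 hW hw0 hδ hα h)
  have hq := qj_zero hf hδ hα xd
  have hxx : jx (x, t, y) * (jw (x, t, y) ^ 2 * (ja (x, t, y) + 1) * x) =
      (jd (x, t, y) - ja (x, t, y)) *
        (jd (x, t, y) * (jd (x, t, y) - ja (x, t, y)) + jw (x, t, y) ^ 2) := by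
    unfold jx
    refine div_mul_cancel₀ _ (mul_ne_zero (mul_ne_zero (pow_ne_zero 2 hw0) ?_) hx)
    intro h0; apply a1; linear_combination h0
  have hq' := qj_zero' hq hx hxx
  have hd0 := jd_ne hU w1
  refine ⟨hU, w1, xd, a1, da, g, ?_, ?_⟩
  · intro h
    rw [h, qj_delta hδ] at hq'
    exact g6 (bad6 hW hδ hα ((mul_eq_zero.1 hq').resolve_left hd0))
  · intro h
    have h' : (jx (x, t, y) - 1) * (jx (x, t, y) + 1) = 0 := by linear_combination h
    rcases mul_eq_zero.1 h' with h3 | h3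
    · have e1 : jx (x, t, y) = 1 := by linear_combination h3
      rw [e1] at hq'
      have := qj_one (α := ja (x, t, y)) hδ
      rw [hq', mul_zero] at this
      rcases mul_eq_zero.1 this with h4 | h4
      · exact g7a (bad7a hW hδ hα h4)
      · rcases bad7b hW hδ hα h4 with h5 | h5
        · exact g7b h5
        · exact g7e h5
    · have e1 : jx (x, t, y) = -1 := by linear_combination h3
      rw [e1] at hq'
      have := qj_neg_one (α := ja (x, t, y)) hδ
      rw [hq', mul_zero] at this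
      rcases mul_eq_zero.1 this with h4 | h4
      · exact g7c (bad7c hW hδ hα h4)
      · exact g7d (bad7d hW hδ hα h4)

end Pool.Agent.WAP.H90
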