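import Pool.Agent.WAP.StmtsB
import Pool.Agent.WAP.K3
import Pool.Agent.Helper90_WAP.JDen

/-!
The open part `XU F` is dense in the smooth projective K3 surface `XP F` (definitions: K3.lean).
-/

namespace Pool.Agent.WAP

/-- homogeneous coordinates of the points of the open part -/
def XU.coords {F : Type} [Field F] (z : XU F) : XC F :=
  ⟨((z.1.1, 1), (z.1.2.1, 1), (z.1.2.2, z.1.2.1 ^ 3 - z.1.2.1)), by
    obtain ⟨⟨x, t, y⟩, h1, h2⟩ := z
    simp only at h1 h2
    refine ⟨?_, ?_, ?_, ?_⟩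
    · simp
    · simp
    · intro h
      exact h2 (congrArg Prod.fst h)
    · simp only [F4]
      linear_combination (t ^ 3 - t) * h1⟩

/-- the open part as a part of the projective surface -/
def XU.incl {F : Type} [Field F] (z : XU F) : XP F :=
  Quotient.mk (xcSetoid F) (XU.coords z)

/-- **PRJ**: the `K`-rational points of the smooth projective K3 surface are dense in the product
of its points over all completions of `K = Q(i)`. -/
def PrjStmt : Prop :=
  ∀ (K : Type) [Field K] [Algebra GaussianInt K] [IsFractionRing GaussianInt K] (σ : K →+* ℂ),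
    DenseRange (fun z : XP K =>
      (((fun v : IsDedekindDomain.HeightOneSpectrum GaussianInt =>
        XP.map (algebraMap K (v.adicCompletion K)) z), XP.map σ z) :
        (∀ v : IsDedekindDomain.HeightOneSpectrum GaussianInt, XP (v.adicCompletion K)) × XP ℂ))

namespace H90

open Filter Topology

theorem XU_incl_map {K F : Type} [Field K] [Field F] (σ : K →+* F) (z : XU K) :
    XP.map σ (XU.incl z) = XU.incl (XU.map σ z) := by
  show Quotient.mk (xcSetoid F) (XC.map σ (XU.coords z)) = Quotient.mk (xcSetoid F) _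
  congr 1
  apply Subtype.ext
  simp [XC.map, XU.coords, XU.map]

section top
variable {F : Type} [NormedField F]

theorem cont_incl : Continuous (XU.incl (F := F)) := by
  have h1 : Continuous (XU.coords (F := F)) := by
    unfold XU.coords
    refine Continuous.subtype_mk ?_ _
    fun_prop
  exact continuous_quotient_mk'.comp h1

/-- `F4` is open at its nonzero zeros -/
theorem F4_open [CompleteSpace F] (h : LocSq F) {p : F × F} (hp : p ≠ 0) (h0 : F4 p = 0)
    {N : Set (F × F)} (hN : N ∈ 𝓝 p) : F4 '' N ∈ 𝓝 (0 : F) := by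
  obtain ⟨c, hc0, hc1⟩ := h.small
  let _ : NontriviallyNormedField F := NontriviallyNormedField.ofNormNeOne ⟨c, hc0, hc1.ne⟩
  obtain ⟨a, b⟩ := p
  have d1 : HasStrictDerivAt (fun s : F => F4 (s, b)) (3 * a ^ 2 * b - b ^ 3) a := by
    have := ((hasStrictDerivAt_pow 3 a).mul_const b).sub
      ((hasStrictDerivAt_id a).mul_const (b ^ 3))
    refine this.congr_deriv ?_
    push_cast
    ring
  have d2 : HasStrictDerivAt (fun s : F => F4 (a, s)) (a ^ 3 - 3 * a * b ^ 2) b := by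
    have := ((hasStrictDerivAt_id b).const_mul (a ^ 3)).sub
      ((hasStrictDerivAt_pow 3 b).const_mul a)
    refine this.congr_deriv ?_
    push_cast
    ring
  have key : 3 * a ^ 2 * b - b ^ 3 ≠ 0 ∨ a ^ 3 - 3 * a * b ^ 2 ≠ 0 := by
    by_contra hcon
    push Not at hcon
    obtain ⟨e1, e2⟩ := hcon
    have h0' : a ^ 3 * b - a * b ^ 3 = 0 := h0
    have h4 : (4 : F) ≠ 0 := by
      have : (4 : F) = 2 * 2 := by norm_num
      rw [this]; exact mul_ne_zero h.two h.two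
    -- `a * e1 + b * e2 = 4 F4` and `a * e1 - b * e2 = 2 a b (a^2 + b^2)`
    have hb : b = 0 := by
      by_contra hb
      have e3 : 3 * a ^ 2 = b ^ 2 := by
        apply mul_right_cancel₀ hb
        linear_combination e1
      have e4 : a = 0 := by
        by_contra ha
        have e5 : a ^ 2 = b ^ 2 := by
          apply mul_right_cancel₀ (mul_ne_zero ha hb)
          linear_combination h0'
        have : 2 * a ^ 2 = 0 := by linear_combination e3 - e5
        exact (mul_ne_zero h.two (pow_ne_zero 2 ha)) this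
      rw [e4] at e3
      exact pow_ne_zero 2 hb (by linear_combination (-1) * e3)
    have ha : a = 0 := by
      rw [hb] at e2
      have : a ^ 3 = 0 := by linear_combination e2
      exact (pow_eq_zero_iff three_ne_zero).1 this
    exact hp (by rw [ha, hb]; rfl)
  rcases key with k | k
  · have hm := d1.map_nhds_eq k
    rw [h0] at hm
    rw [← hm, mem_map]
    have hc : ContinuousAt (fun s : F => (s, b)) a := by fun_prop
    filter_upwards [hc.preimage_mem_nhds hN] with s hs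
    exact ⟨(s, b), hs, rfl⟩
  · have hm := d2.map_nhds_eq k
    rw [h0] at hm
    rw [← hm, mem_map]
    have hc : ContinuousAt (fun s : F => (a, s)) b := by fun_prop
    filter_upwards [hc.preimage_mem_nhds hN] with s hs
    exact ⟨(a, s), hs, rfl⟩

/-- `F4` does not vanish identically near any point -/
theorem F4_ne_near (h : LocSq F) {p : F × F} {N : Set (F × F)} (hN : N ∈ 𝓝 p) :
    ∃ q ∈ N, F4 q ≠ 0 := by
  obtain ⟨a, b⟩ := p
  obtain ⟨A, hA, B, hB, hAB⟩ := mem_nhds_prod_iff.1 hN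
  obtain ⟨b', hb', hb0⟩ := exists_near h (Set.finite_singleton (0 : F)) hB
  obtain ⟨a', ha', ha0⟩ := exists_near h (Set.toFinite ({0, b', -b'} : Set F)) hA
  refine ⟨(a', b'), hAB ⟨ha', hb'⟩, ?_⟩
  simp only [Set.mem_insert_iff, Set.mem_singleton_iff, not_or] at ha0 hb0
  obtain ⟨h1, h2, h3⟩ := ha0
  have e : F4 (a', b') = a' * b' * ((a' - b') * (a' - (-b'))) := by
    simp only [F4]; ring
  rw [e]
  exact mul_ne_zero (mul_ne_zero h1 hb0) (mul_ne_zero (sub_ne_zero.2 h2) (sub_ne_zero.2 h3))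

theorem cont_F4 : Continuous (F4 (F := F)) := by
  unfold F4
  fun_prop

/-- the main local step -/
theorem good_near_A [CompleteSpace F] (h : LocSq F) {x t : F × F} {u v : F} (hx : x ≠ 0)
    (hv : v ≠ 0) (he : u ^ 2 * F4 t = v ^ 2 * F4 x) (hFx : F4 x = 0) {Nx Nt : Set (F × F)}
    {Nu : Set F} (hNx : Nx ∈ 𝓝 x) (hNt : Nt ∈ 𝓝 t) (hNu : Nu ∈ 𝓝 u) :
    ∃ x' ∈ Nx, ∃ t' ∈ Nt, ∃ u' ∈ Nu, u' ≠ 0 ∧ F4 x' ≠ 0 ∧ F4 t' ≠ 0 ∧
      u' ^ 2 * F4 t' = v ^ 2 * F4 x' := by
  have hopen := F4_open h hx hFx hNx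
  have hv2 : v ^ 2 ≠ 0 := pow_ne_zero 2 hv
  have hc : Tendsto (fun q : (F × F) × F => q.2 ^ 2 * F4 q.1 / v ^ 2) (𝓝 (t, u)) (𝓝 0) := by
    have hcc : Continuous (fun q : (F × F) × F => q.2 ^ 2 * F4 q.1 / v ^ 2) := by
      have := cont_F4 (F := F)
      fun_prop
    have h1 := hcc.tendsto (t, u)
    have h2 : (u ^ 2 * F4 t / v ^ 2 : F) = 0 := by rw [he, hFx, mul_zero, zero_div]
    simp only at h1
    rw [h2] at h1
    exact h1
  have h3 := hc hopen
  rw [mem_map] at h3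
  obtain ⟨A, hA, B, hB, hAB⟩ := mem_nhds_prod_iff.1 h3
  obtain ⟨u', hu', hu0⟩ := exists_near h (Set.finite_singleton (0 : F)) (inter_mem hB hNu)
  obtain ⟨t', ht', ht0⟩ := F4_ne_near h (inter_mem hA hNt)
  have h4 : u' ^ 2 * F4 t' / v ^ 2 ∈ F4 '' Nx := hAB (Set.mk_mem_prod ht'.1 hu'.1)
  obtain ⟨x', hx', hx4⟩ := h4
  have hu00 : u' ≠ 0 := hu0
  refine ⟨x', hx', t', ht'.2, u', hu'.2, hu00, ?_, ht0, ?_⟩
  · rw [hx4]
    exact div_ne_zero (mul_ne_zero (pow_ne_zero 2 hu00) ht0) hv2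
  · rw [hx4, mul_div_cancel₀ _ hv2]

theorem ne_zero_of_F4 {p : F × F} (h : F4 p ≠ 0) : p ≠ 0 := by
  rintro rfl
  apply h
  simp [F4]

/-- points with `F4 x, F4 t ≠ 0` are dense in the cone -/
theorem good_near [CompleteSpace F] (h : LocSq F) {p : (F × F) × (F × F) × (F × F)}
    (hp : p ∈ XC F) {N : Set ((F × F) × (F × F) × (F × F))} (hN : N ∈ 𝓝 p) :
    ∃ q ∈ N, q ∈ XC F ∧ F4 q.1 ≠ 0 ∧ F4 q.2.1 ≠ 0 := by
  obtain ⟨x, t, u, v⟩ := p
  obtain ⟨hx, ht, huv, he⟩ := hp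
  simp only at hx ht huv he
  obtain ⟨Nx, hNx, N1, hN1, hs1⟩ := mem_nhds_prod_iff.1 hN
  obtain ⟨Nt, hNt, N2, hN2, hs2⟩ := mem_nhds_prod_iff.1 hN1
  obtain ⟨Nu, hNu, Nv, hNv, hs3⟩ := mem_nhds_prod_iff.1 hN2
  by_cases c1 : F4 x ≠ 0 ∧ F4 t ≠ 0
  · exact ⟨_, mem_of_mem_nhds hN, ⟨hx, ht, huv, he⟩, c1.1, c1.2⟩
  have c2 : (F4 x = 0 ∧ v ≠ 0) ∨ (F4 t = 0 ∧ u ≠ 0) := by
    by_cases hv : v = 0
    · have hu : u ≠ 0 := by
        rintro rfl
        exact huv (by rw [hv]; rfl)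
      right
      refine ⟨?_, hu⟩
      rw [hv] at he
      have h1 : u ^ 2 * F4 t = 0 := by linear_combination he
      exact (mul_eq_zero.1 h1).resolve_left (pow_ne_zero 2 hu)
    · by_cases hx4 : F4 x = 0
      · exact Or.inl ⟨hx4, hv⟩
      · right
        have ht4 : F4 t = 0 := by
          by_contra hcon
          exact c1 ⟨hx4, hcon⟩
        rw [ht4, mul_zero] at he
        exact absurd he.symm (mul_ne_zero (pow_ne_zero 2 hv) hx4)
  rcases c2 with ⟨hx4, hv⟩ | ⟨ht4, hu⟩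
  · obtain ⟨x', hx', t', ht', u', hu', hu0, hx0, ht0, he'⟩ :=
      good_near_A h hx hv he hx4 hNx hNt hNu
    refine ⟨(x', t', u', v), hs1 ⟨hx', hs2 ⟨ht', hs3 ⟨hu', mem_of_mem_nhds hNv⟩⟩⟩,
      ⟨ne_zero_of_F4 hx0, ne_zero_of_F4 ht0, ?_, he'⟩, hx0, ht0⟩
    intro h0
    exact hu0 (congrArg Prod.fst h0)
  · obtain ⟨t', ht', x', hx', v', hv', hv0, ht0, hx0, he'⟩ :=
      good_near_A h ht hu he.symm ht4 hNt hNx hNv
    refine ⟨(x', t', u, v'), hs1 ⟨hx', hs2 ⟨ht', hs3 ⟨mem_of_mem_nhds hNu, hv'⟩⟩⟩,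
      ⟨ne_zero_of_F4 hx0, ne_zero_of_F4 ht0, ?_, he'.symm⟩, hx0, ht0⟩
    intro h0
    exact hu (congrArg Prod.fst h0)

/-- a point of the cone with `F4 x, F4 t ≠ 0` represents a point of the open part -/
theorem mem_range_incl {p : XC F} (hx : F4 p.1.1 ≠ 0) (ht : F4 p.1.2.1 ≠ 0) :
    Quotient.mk (xcSetoid F) p ∈ Set.range (XU.incl (F := F)) := by
  obtain ⟨⟨⟨x0, x1⟩, ⟨t0, t1⟩, ⟨u, v⟩⟩, hp1, hp2, hp3, he⟩ := p
  simp only [F4] at hx ht he
  have hx1 : x1 ≠ 0 := by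
    rintro rfl
    apply hx; ring
  have ht1 : t1 ≠ 0 := by
    rintro rfl
    apply ht; ring
  have hu : u ≠ 0 := by
    rintro rfl
    have h1 : v ^ 2 * (x0 ^ 3 * x1 - x0 * x1 ^ 3) = 0 := by linear_combination (-1) * he
    have hv : v = 0 := (pow_eq_zero_iff two_ne_zero).1 ((mul_eq_zero.1 h1).resolve_right hx)
    exact hp3 (by rw [hv]; rfl)
  have hv : v ≠ 0 := by
    rintro rfl
    have h1 : u ^ 2 * (t0 ^ 3 * t1 - t0 * t1 ^ 3) = 0 := by linear_combination he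
    exact hu ((pow_eq_zero_iff two_ne_zero).1 ((mul_eq_zero.1 h1).resolve_right ht))
  have hft : (t0 / t1) ^ 3 - t0 / t1 = (t0 ^ 3 * t1 - t0 * t1 ^ 3) / t1 ^ 4 := by
    field_simp
  have hfx : (x0 / x1) ^ 3 - x0 / x1 = (x0 ^ 3 * x1 - x0 * x1 ^ 3) / x1 ^ 4 := by
    field_simp
  have hft0 : (t0 / t1) ^ 3 - t0 / t1 ≠ 0 := by
    rw [hft]; exact div_ne_zero ht (pow_ne_zero 4 ht1)
  refine ⟨⟨(x0 / x1, t0 / t1,
    ((t0 / t1) ^ 3 - t0 / t1) * t1 ^ 2 * u / (v * x1 ^ 2)), ?_, ?_⟩, ?_⟩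
  · show (((t0 / t1) ^ 3 - t0 / t1) * t1 ^ 2 * u / (v * x1 ^ 2)) ^ 2 =
      ((x0 / x1) ^ 3 - x0 / x1) * ((t0 / t1) ^ 3 - t0 / t1)
    rw [hft, hfx]
    generalize hA : t0 ^ 3 * t1 - t0 * t1 ^ 3 = A at *
    generalize hB : x0 ^ 3 * x1 - x0 * x1 ^ 3 = B at *
    field_simp
    linear_combination he
  · exact div_ne_zero (mul_ne_zero (mul_ne_zero hft0 (pow_ne_zero 2 ht1)) hu)
      (mul_ne_zero hv (pow_ne_zero 2 hx1))
  · apply Eq.symm
    apply Quotient.sound (s := xcSetoid F)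
    refine ⟨1 / x1, 1 / t1, ((t0 / t1) ^ 3 - t0 / t1) * t1 ^ 2 / v,
      one_div_ne_zero hx1, one_div_ne_zero ht1,
      div_ne_zero (mul_ne_zero hft0 (pow_ne_zero 2 ht1)) hv, ?_, ?_, ?_⟩
    · simp only [XU.coords, Prod.mk.injEq]
      constructor <;> field_simp
    · simp only [XU.coords, Prod.mk.injEq]
      constructor <;> field_simp
    · simp only [XU.coords, Prod.mk.injEq]
      constructor
      · field_simp
      · field_simp

/-- the open part is dense in the projective surface -/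
theorem denseRange_incl [CompleteSpace F] (h : LocSq F) : DenseRange (XU.incl (F := F)) := by
  intro q
  obtain ⟨p, rfl⟩ := Quotient.exists_rep q
  rw [mem_closure_iff_nhds]
  intro O hO
  have hc : Continuous (fun p : XC F => (Quotient.mk (xcSetoid F) p : XP F)) :=
    continuous_quotient_mk'
  have h1 := hc.continuousAt.preimage_mem_nhds hO
  rw [nhds_subtype_eq_comap, mem_comap] at h1
  obtain ⟨N, hN, hs⟩ := h1
  obtain ⟨q, hq, hqX, hx, ht⟩ := good_near h p.2 hN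
  refine ⟨Quotient.mk (xcSetoid F) ⟨q, hqX⟩, hs hq, ?_⟩
  exact mem_range_incl (p := ⟨q, hqX⟩) hx ht

end top

end H90

end Pool.Agent.WAP
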