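import Pool.Agent.Helper90_WAP.J

/-!
The shear `(P, Q) ↦ (P, Q + P)` and its inverse `(P, Q) ↦ (P, Q - P)` on the Kummer surface
`y ^ 2 = (x ^ 3 - x) * (t ^ 3 - t)` in the coordinates `x = x(P)`, `t = x(Q)`,
`y = d * y(P) * y(Q)`, `P = (x, 1)`, `Q = (t, y / d)` points of the twist
`d * Y ^ 2 = X ^ 3 - X`, `d = x ^ 3 - x`.
-/

namespace Pool.Agent.Helper90_WAP

variable {F : Type*} [Field F]

/-- `x(Q + P)` -/
def shT (x t y : F) : F := (y - (x ^ 3 - x)) ^ 2 / ((x ^ 3 - x) * (t - x) ^ 2) - x - t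

/-- `y`-coordinate of `(P, Q + P)` -/
def shY (x t y : F) : F :=
  -((x ^ 3 - x) + (y - (x ^ 3 - x)) * (shT x t y - x) / (t - x))

/-- `x(Q - P)` -/
def usT (x t y : F) : F := (y + (x ^ 3 - x)) ^ 2 / ((x ^ 3 - x) * (t - x) ^ 2) - x - t

/-- `y`-coordinate of `(P, Q - P)` -/
def usY (x t y : F) : F :=
  (x ^ 3 - x) - (y + (x ^ 3 - x)) * (usT x t y - x) / (t - x)

/-- general chord lemma: if the line `s = s0 + l * (z - x)` through the two different points
`(x, s0)`, `(t, s1)` of `d * s ^ 2 = z ^ 3 - z` is cut with the curve, the third point is on the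
curve -/
theorem chord {d x t s0 s1 l z : F} (hxt : t ≠ x) (h0 : d * s0 ^ 2 = x ^ 3 - x)
    (h1 : d * s1 ^ 2 = t ^ 3 - t) (hl : l * (t - x) = s1 - s0) (hz : z = d * l ^ 2 - x - t) :
    d * (s0 + l * (z - x)) ^ 2 = z ^ 3 - z := by
  have hs1 : s1 = s0 + l * (t - x) := by linear_combination (-1) * hl
  have htx : t - x ≠ 0 := sub_ne_zero.2 hxt
  have e : d * (2 * s0 * l + l ^ 2 * (t - x)) = t ^ 2 + t * x + x ^ 2 - 1 := by
    apply mul_right_cancel₀ htx
    rw [hs1] at h1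
    linear_combination h1 - h0
  have hd : d * l ^ 2 = z + x + t := by linear_combination (-1) * hz
  linear_combination h0 + (z - x) * e + (z - x) * (z - t) * hd

theorem onX_shear {x t y : F} (hX : OnX x t y) (hd : x ^ 3 - x ≠ 0) (hxt : t ≠ x) :
    OnX x (shT x t y) (shY x t y) := by
  have htx : t - x ≠ 0 := sub_ne_zero.2 hxt
  unfold OnX at hX
  obtain ⟨d, hD⟩ : ∃ d, d = x ^ 3 - x := ⟨_, rfl⟩
  rw [← hD] at hd hX
  have h1 : d * (y / d) ^ 2 = t ^ 3 - t := by
    field_simp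
    linear_combination hX
  have hz : shT x t y = d * ((y / d - 1) / (t - x)) ^ 2 - x - t := by
    unfold shT
    rw [← hD]
    field_simp
  have hc := chord (d := d) (x := x) (t := t) (s0 := 1) (s1 := y / d)
    (l := (y / d - 1) / (t - x)) (z := shT x t y) hxt (by rw [hD]; ring) h1
    (by field_simp) hz
  unfold OnX
  have e : shY x t y = -(d * (1 + (y / d - 1) / (t - x) * (shT x t y - x))) := by
    unfold shY
    rw [← hD]
    field_simp
  rw [e, ← hD]
  linear_combination d * hc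

theorem onX_unshear {x t y : F} (hX : OnX x t y) (hd : x ^ 3 - x ≠ 0) (hxt : t ≠ x) :
    OnX x (usT x t y) (usY x t y) := by
  have h := onX_shear (x := x) (t := t) (y := -y) (by unfold OnX at *; linear_combination hX) hd hxt
  have e1 : shT x t (-y) = usT x t y := by unfold shT usT; ring
  have e2 : shY x t (-y) = -usY x t y := by unfold shY usY; rw [e1]; ring
  rw [e1, e2] at h
  unfold OnX at *
  linear_combination h

theorem usT_shear {x t y : F} (hxt : t ≠ x)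
    (h2 : shT x t y ≠ x) : usT x (shT x t y) (shY x t y) = t := by
  have htx : t - x ≠ 0 := sub_ne_zero.2 hxt
  have h2' : shT x t y - x ≠ 0 := sub_ne_zero.2 h2
  have e : shY x t y + (x ^ 3 - x) = -((y - (x ^ 3 - x)) * (shT x t y - x) / (t - x)) := by
    unfold shY; ring
  have e3 : (y - (x ^ 3 - x)) ^ 2 / ((x ^ 3 - x) * (t - x) ^ 2) = shT x t y + x + t := by
    unfold shT; ring
  unfold usT
  rw [e]
  have e4 : (-((y - (x ^ 3 - x)) * (shT x t y - x) / (t - x))) ^ 2 /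
      ((x ^ 3 - x) * (shT x t y - x) ^ 2) = (y - (x ^ 3 - x)) ^ 2 / ((x ^ 3 - x) * (t - x) ^ 2) := by
    field_simp
  rw [e4, e3]; ring

theorem usY_shear {x t y : F} (hxt : t ≠ x)
    (h2 : shT x t y ≠ x) : usY x (shT x t y) (shY x t y) = y := by
  have htx : t - x ≠ 0 := sub_ne_zero.2 hxt
  have h2' : shT x t y - x ≠ 0 := sub_ne_zero.2 h2
  have e : shY x t y + (x ^ 3 - x) = -((y - (x ^ 3 - x)) * (shT x t y - x) / (t - x)) := by
    unfold shY; ring
  unfold usY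
  rw [usT_shear hxt h2, e]
  field_simp
  ring

/-- product formula `x(P + Q) * x(P - Q) = (x t + 1) ^ 2 / (x - t) ^ 2` -/
theorem product_formula {x t y : F} (hX : OnX x t y) (hd : x ^ 3 - x ≠ 0) (hxt : t ≠ x) :
    shT x t y * usT x t y = (x * t + 1) ^ 2 / (t - x) ^ 2 := by
  have htx : t - x ≠ 0 := sub_ne_zero.2 hxt
  unfold OnX at hX
  obtain ⟨d, hD⟩ : ∃ d, d = x ^ 3 - x := ⟨_, rfl⟩
  unfold shT usT
  rw [← hD] at hd hX ⊢
  have key : ((y - d) ^ 2 - d * (t - x) ^ 2 * (x + t)) *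
      ((y + d) ^ 2 - d * (t - x) ^ 2 * (x + t)) =
      (x * t + 1) ^ 2 * (d ^ 2 * (t - x) ^ 2) := by
    have : ((y - d) ^ 2 - d * (t - x) ^ 2 * (x + t)) *
      ((y + d) ^ 2 - d * (t - x) ^ 2 * (x + t)) =
      (y ^ 2 - d ^ 2) ^ 2 - d * (t - x) ^ 2 * (x + t) * (2 * (y ^ 2 + d ^ 2)) +
        (d * (t - x) ^ 2 * (x + t)) ^ 2 := by ring
    rw [this, hX, hD]
    ring
  have e1 : (y - d) ^ 2 / (d * (t - x) ^ 2) - x - t =
      ((y - d) ^ 2 - d * (t - x) ^ 2 * (x + t)) / (d * (t - x) ^ 2) := by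
    field_simp
    ring
  have e2 : (y + d) ^ 2 / (d * (t - x) ^ 2) - x - t =
      ((y + d) ^ 2 - d * (t - x) ^ 2 * (x + t)) / (d * (t - x) ^ 2) := by
    field_simp
    ring
  rw [e1, e2, div_mul_div_comm, key]
  field_simp

end Pool.Agent.Helper90_WAP
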